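import Mathlib
import Pool.Agent.H373R2.T4.DLS
import Pool.Agent.H373R2.T7.Vau
import Pool.Agent.Q83.WG.SA
import Pool.Agent.N792.Tri
import Pool.Agent.N792.Defs2

/-!
# Project BP (helper757): primes `n² + a` for a positive proportion of the `a ≤ A`, `A ≥ N^(1/2+ε)`

Statements. Every statement is a `Prop` with a complete proof in its docstring.
-/

set_option autoImplicit false

namespace Run7.h757.BP

open Finset Filter Topology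
open Pool.Agent.H469R2.NK (e)
open Pool.Agent.N792 (Vc V1 tri triC)

/-- the sum over a block of frequencies -/
noncomputable def EE (H : ℕ) (c : ℕ → ℂ) (v : ℕ) : ℂ := ∑ h ∈ Ico H (2 * H), c h * e (h * √(v : ℝ))

/-- **SPC**: the spacing of the numbers `h √k`. Proof. For given `h`, `h'` let `g = gcd (h, h')`, `h = g a`, `h' = g b`,
`(a, b) = 1`. Then `|a² k - b² k'| ≤ D / g²`. For every integer `d` with `|d| ≤ D / g²` the `k` with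
`a² k ≡ d (mod b²)` form one residue class modulo `b²` (as `a²` is invertible), which has at most
`K / b² + 1 ≤ K g² / H² + 1` members in `(K, 2K]`, and `d`, `k` determine `k'`. There are at most `2 D / g² + 1` numbers `d`
and (for given `g ≤ 2H`) at most `(2H/g)²` pairs `(a, b)`. Total at most
`∑_{g ≤ 2H} (4 H² / g²) (2 D / g² + 1) (K g² / H² + 1) = 4 ∑_g (2 D / g² + 1) (K + H² / g²)
≤ 4 (4 D K + 4 D H² + 2 H K + 2 H²)`, using `∑ 1/g² ≤ 2`. -/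
def S_SPC : Prop := ∃ C : ℝ, 1 ≤ C ∧ ∀ (H K : ℕ) (D : ℝ), 1 ≤ H → 1 ≤ K → 0 ≤ D →
  (#(((Ico H (2 * H) ×ˢ Ioc K (2 * K)) ×ˢ (Ico H (2 * H) ×ˢ Ioc K (2 * K))).filter
    (fun v : (ℕ × ℕ) × (ℕ × ℕ) => |(v.1.1 : ℝ) ^ 2 * v.1.2 - (v.2.1 : ℝ) ^ 2 * v.2.2| ≤ D)) : ℝ) ≤
    C * (D * K + D * H ^ 2 + H * K + H ^ 2)

/-- **TII**: the double large sieve (from SPC). Proof: `Pool.Agent.H373R2.T4.dls` with `R` the pairs `(h, k)`, `x = h √k`,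
`S = Ioc J (2J)`, `y = √j`, `Y = √(2 J)`, grid size (its `J`) `G = ⌊16 H √(K J)⌋₊ + 1` (as `x · 4 Y < 2 H √(2K) · 4 √(2J) =
16 H √(K J)`). If `|h √k - h' √k'| ≤ 1 / (4 Y)` then `|h² k - h'² k'| ≤ (1 / (4Y)) · 4 H √(2K) = H √(K / J) =: D`: SPC gives
`Nx = C (D K + D H² + H K + H²)`. For `Ny`: `|y_j - y_{j'}| ≥ |j - j'| / (2 √(2J))`, and the sum over `p < 2G` of
`e (p θ)`, `θ = (y_j - y_{j'}) / (4Y)`, `|θ| ≤ 1/4`, is at most `min (2G, 1 / (2 |θ|))` (there is a lemma of this kind next to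
`kusmin_landau_mono` in `Pool/Agent/H469R2/NK`), `1 / (2|θ|) ≤ 4 Y √(2J) / |j - j'| = 8 J / |j - j'|`; so for given `j` the sum
over `j'` of the squares is at most `4 G² + 2 ∑_{d ≥ 1} min (4 G², 64 J² / d²) ≤ 4 G² + 2 (4 G² · (4J/G) + 64 J² · 2 / (4 J / G))
≤ C G (G + J)`; so `Ny = C J (G + J)`. -/
def S_TII : Prop := ∃ C : ℝ, 1 ≤ C ∧ ∀ (H K J : ℕ), 1 ≤ H → 1 ≤ K → 1 ≤ J → ∀ (α : ℕ → ℕ → ℂ) (β : ℕ → ℂ),
  (∀ h k, ‖α h k‖ ≤ 1) → (∀ j, ‖β j‖ ≤ 1) →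
  ‖∑ h ∈ Ico H (2 * H), ∑ k ∈ Ioc K (2 * K), ∑ j ∈ Ioc J (2 * J), α h k * β j * e (h * √((j : ℝ) * k))‖ ^ 2 ≤
    C * (J * (H * √((K : ℝ) * J) + J)) *
      ((H * √((K : ℝ) / J)) * K + (H * √((K : ℝ) / J)) * H ^ 2 + H * K + H ^ 2)

/-- **BIL**: type II sums with the condition `X < m l ≤ X'` (from TII). Proof. By symmetry suppose `M ≤ L`. Let `k = m`,
`j = l`, `K = M`, `J = L`. We may suppose that some `(m, l)` satisfies `X < m l ≤ X'`, so `K J ≤ 2 X` and `X < 4 K J`; with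
`K ≤ J` and `U < 2K`, `X ≤ 16 U^4`: `(1/4) X^(1/4) ≤ K ≤ √(2X)`, `√(X/8) ≤ J ≤ 8 X^(3/4)`. Separation of the condition: with
`G = 2 J + 1`, for `J < j ≤ 2J`: `1_{j ≤ Z} = (1/G) ∑_{r < G} e (j r / G) D_Z(r)`, `D_Z (r) = ∑_{0 ≤ z ≤ min (Z, 2J)} e (- z r / G)`,
`|D_Z(r)| ≤ min (G, 1 / (2 ‖r/G‖)) =: w_r` for all `Z`, and `(1/G) ∑_r w_r ≤ 2 (1 + log G)`. So the sum with the condition
`X / k < j ≤ X' / k` is `(1/G) ∑_r w_r ∑ α' β'_r e(h √(jk))` with `|α'| ≤ 2` (difference of two `Z`), `β'_r(j) = β(j) e (j r / G)`;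
TII for every `r`. With `D = H √(K/J) ≤ 4 H K / √X`: the square of the bound of TII is at most
`C J (H √X + J) (H K² / √X + H³ K / √X + H K + H²)`; `H K² / √X ≤ 2 H K`; `H² ≤ H K + H³ K / √X` up to a constant because
`(H K) (H³ K / √X) ≥ H⁴ / 16`. So it is `≤ C (J K) (H √X + J) H (1 + H² / √X) ≤ C X H (1 + H² / √X) (H √X + 8 X^(3/4))`.
If `H² ≤ √X`: `≤ C X H · X^(3/4) = C H X^(7/4)`. If `H² > √X`: `≤ C X H³ X^(-1/2) · H X^(1/2) · C = C H⁴ X`. So the square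
root is at most `C (√H X^(7/8) + H² X^(1/2))`. -/
def S_BIL : Prop := ∃ C : ℝ, 1 ≤ C ∧ ∀ (X X' U H M L : ℕ) (c a b : ℕ → ℂ), 1 ≤ H → H ^ 2 ≤ X → 1 ≤ X → X ≤ X' →
  X' ≤ 2 * X → X ≤ 16 * U ^ 4 → 1 ≤ M → 1 ≤ L → U < 2 * M → U < 2 * L → M * L ≤ X' →
  (∀ h, ‖c h‖ ≤ 1) → (∀ m, ‖a m‖ ≤ 1) → (∀ l, ‖b l‖ ≤ 1) →
  ‖∑ m ∈ Ioc M (2 * M), ∑ l ∈ Ioc L (2 * L), a m * b l * (if X < m * l ∧ m * l ≤ X' then EE H c (m * l) else 0)‖ ≤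
    C * (1 + Real.log X) * (√(H : ℝ) * (X : ℝ) ^ (7 / 8 : ℝ) + (H : ℝ) ^ 2 * (X : ℝ) ^ (1 / 2 : ℝ))

/-- **TI**: the second derivative test. Proof: `Pool.Agent.Q83.WG.vdc2` for the sequence `- h √(k (X/k + 1 + n))` (the second
differences of `- √y` at `y` are `≍ y^(-3/2) / 4` and decrease; reverse the order of summation so that they increase, and
replace the sum by its conjugate), `L = b - X / k` terms, `lam = c h √k (X / k)^(-3/2) = c h k² X^(-3/2)` and `Lam = C h k² X^(-3/2)`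
(`≤ 1/4` for `X ≥ X₀` because `h ≤ X^(1/2)`, `k² ≤ X^(1/2)`; for small `X` use the trivial bound `b ≤ 2X` and a large `C`):
the square of the sum is at most `C (1 + h k² X^(-3/2) X / k) (X / k + X^(3/2) / (h k²)) (1 + log X)
≤ C (X / k + X^(3/2) / (h k²) + h X^(1/2)) (1 + log X)`, and `X / k` is the geometric mean of the other two. -/
def S_TI : Prop := ∃ C : ℝ, 1 ≤ C ∧ ∀ (X X' h k b : ℕ), 1 ≤ X → X' ≤ 2 * X → 1 ≤ h → h ^ 2 ≤ X → 1 ≤ k → k ^ 4 ≤ X →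
  b ≤ X' / k →
  ‖∑ l ∈ Ioc (X / k) b, e (h * √((k * l : ℕ) : ℝ))‖ ≤
    C * (√(h : ℝ) * (X : ℝ) ^ (1 / 4 : ℝ) + (X : ℝ) ^ (3 / 4 : ℝ) / (√(h : ℝ) * k)) * (1 + Real.log X)

/-- **VAU**: Vaughan's identity with bounds in the supremum norm. Proof: modify `Pool.Agent.H373R2.T7.vaughan_gen`
(`Pool/Agent/H373R2/T7/Vau.lean`). In the sum `S1` the coefficients are at most `T` and `1 + log (4N)` (divide by these
numbers before applying the hypothesis on bilinear sums). The type I sums over `m ≤ U` are as there; in `S3` the part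
`U < m ≤ U²` is a bilinear sum with the coefficients `mu1 * l1` (at most `log`) and `1_{l > U}` (the condition `l > U` holds
because `l > N / m - 1` and `U³ ≤ N`: precisely `l ≥ N / m + 1 > N / U² ≥ U`), so `bil_gen` applies. In `S2` the coefficient
`mu1 U m` is supported on `m ≤ U`. -/
def S_VAU : Prop := ∀ (E : ℕ → ℂ) (N N' U : ℕ), 1 ≤ N → N ≤ N' → N' ≤ 2 * N → 1 ≤ U → U ^ 3 ≤ N →
  ∀ (Y : ℕ → ℝ) (T R : ℝ), 0 ≤ R → (∀ m, 0 ≤ Y m) → 1 ≤ T →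
  (∀ m : ℕ, 1 ≤ m → m ≤ N' → (m.divisors.card : ℝ) ≤ T) →
  (∀ m ∈ Icc 1 U, ∀ b, b ≤ N' / m → ‖∑ l ∈ Ioc (N / m) b, E (m * l)‖ ≤ Y m) →
  (∀ a b : ℕ → ℂ, (∀ m, ‖a m‖ ≤ 1) → (∀ l, ‖b l‖ ≤ 1) → ∀ M L : ℕ, 1 ≤ M → 1 ≤ L → U < 2 * M → U < 2 * L → M * L ≤ N' →
    ‖∑ m ∈ Ioc M (2 * M), ∑ l ∈ Ioc L (2 * L), a m * b l * (if N < m * l ∧ m * l ≤ N' then E (m * l) else 0)‖ ≤ R) →
  ‖∑ n ∈ Ioc N N', ((ArithmeticFunction.vonMangoldt n : ℝ) : ℂ) * E n‖ ≤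
    20 * (1 + Real.log (4 * N)) ^ 4 * T * R + 3 * (1 + Real.log (4 * N)) * ∑ m ∈ Icc 1 U, Y m

/-- **ES**: exponential sums over primes with the phases `h √n` on average over `h` (from VAU, BIL, TI). Proof: VAU with
`E = EE H c`, `N = X`, `N' = X'`, `U = ⌊X^(1/4)⌋` (so `U ≥ X^(1/4) / 2`, `X ≤ 16 U^4`, `U³ ≤ X`), `T = C X^(ε/4)` (divisor bound, in
Mathlib or e.g. search card_divisors_le in the starting tree), `R` from BIL, `Y m = ∑_{h} (bound of TI)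
≤ C (H^(3/2) X^(1/4) + √H X^(3/4) / m) (1 + log X)`, so
`∑_{m ≤ U} Y m ≤ C (H^(3/2) X^(1/2) + √H X^(3/4) (1 + log X)) (1 + log X)`, and `H^(3/2) X^(1/2) ≤ H² X^(1/2)`. The powers of
`log X` are at most `C X^(ε/4)`. -/
def S_ES : Prop := ∀ ε : ℝ, 0 < ε → ∃ C : ℝ, 1 ≤ C ∧ ∀ (X X' H : ℕ) (c : ℕ → ℂ), 1 ≤ H → H ^ 2 ≤ X → X ≤ X' →
  X' ≤ 2 * X → (∀ h, ‖c h‖ ≤ 1) →
  ‖∑ n ∈ Ioc X X', ((ArithmeticFunction.vonMangoldt n : ℝ) : ℂ) * EE H c n‖ ≤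
    C * (X : ℝ) ^ ε * (√(H : ℝ) * (X : ℝ) ^ (7 / 8 : ℝ) + (H : ℝ) ^ 2 * (X : ℝ) ^ (1 / 2 : ℝ))

/-- **TRI**: sums of the triangle function over primes (from ES). Proof. `Pool.Agent.N792.tri_hasSum`:
`tri δ θ = δ + ∑_{n ≥ 1} triC δ n cos (2 π n θ)` (the term `n = 0` of the series is `0`), `0 ≤ triC δ n ≤ min (2δ, 2 / (π² n² δ))`
(`triC_nonneg`, `triC_le_one`, and `1 - cos ≤ 2`). So, with `W = ∑_{X < v ≤ X'} Λ(v) ≤ 3 X`,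
`|∑ Λ(v) tri δ (√v + t) - δ W| ≤ ∑_{n < 2^I} triC δ n |Σ_n| + 3 X ∑_{n ≥ 2^I} 2 / (π² n² δ)`, where
`Σ_n = ∑ Λ(v) e(n (√v + t))` (real part). Choose `2^I` between `K₁ / δ²` and `2 K₁ / δ²` with a large constant `K₁ = K₁(η)` (it
is at most `X^(1/2)`, so that ES applies to all blocks `H = 2^i`, `i < I`): the tail is at most `C X δ / K₁ ≤ (η/2) δ X`. A
block `H ≤ n < 2H`: choose the signs `c_n` (times `e (n t)`), ES with a small `ε'` gives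
`∑ |Σ_n| ≤ C X^ε' (√H X^(7/8) + H² X^(1/2))`, weight at most `min (2δ, 1 / (H² δ))`. If `H ≤ 1/δ`:
`2 δ C X^ε' (δ^(-1/2) X^(7/8) + δ^(-2) X^(1/2)) = 2 C δ X · X^ε' ((δ X^(1/4))^(-1/2) + (δ X^(1/4))^(-2))`. If `H > 1/δ`:
`(1/δ) C X^ε' (H^(-3/2) X^(7/8) + X^(1/2)) ≤ C δ X · X^ε' ((δ X^(1/4))^(-1/2) + (δ X^(1/4))^(-2))`. As
`δ ≥ X^(-1/4 + ε)`, everything is `≤ δ X · X^(-ε/4)` for `ε' = ε/8` and large `X`, and there are `O (log X)` blocks. -/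
def S_TRI : Prop := ∀ ε η : ℝ, 0 < ε → 0 < η → ∃ X₀ : ℕ, ∀ X X' : ℕ, X₀ ≤ X → X ≤ X' → X' ≤ 2 * X → ∀ δ t : ℝ,
  (X : ℝ) ^ (-1 / 4 + ε) ≤ δ → δ ≤ 1 / 2 →
  |∑ v ∈ Ioc X X', ArithmeticFunction.vonMangoldt v * tri δ (√(v : ℝ) + t) -
    δ * ∑ v ∈ Ioc X X', ArithmeticFunction.vonMangoldt v| ≤ η * (δ * X)

/-- the number of the `1 ≤ n ≤ N` for which `|n² + a|` is a prime -/
def P (a : ℤ) (N : ℕ) : ℕ := #((Icc 1 N).filter (fun n : ℕ => Nat.Prime ((n : ℤ) ^ 2 + a).natAbs))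

/-- **FM**: the first moment, lower bound (from TRI and the prime number theorem). Proof. Fix a large integer `J = J(η)`.
Cells: `V_i = ⌊N² (1 + 1/J)^(-i)⌋`, `0 ≤ i ≤ I`, `I` constant with `(1 + 1/J)^(-I) ≤ 1/J²`. Cell `(X, X'] = (V_{i+1}, V_i]`,
`X' ≤ 2X`, `κ = A / (2 √X')`, `δ = κ / J` (`κ ≤ 1/2` as `A ≤ N^(9/10)`; `δ ≥ X^(-1/4 + ε/4)`). For `θ` real let
`F(θ) = ∑_{j = 1}^{J-1} tri δ (θ - j δ)`: `0 ≤ F ≤ 1` and `F(θ) = 0` unless the fractional part of `θ` is in `(0, κ)` (on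
`[0, J δ]` it is piecewise linear, equal to `1` on `[δ, (J-1) δ]`). If `v ∈ (X, X']` and the fractional part `φ` of `√v` is in
`(0, κ)`, `n = ⌊√v⌋`, then `v = (n + φ)²`, `v - n² = φ (2 n + φ)`, between `0` (exclusive) and `2 κ √v ≤ A`: so `v = n² + a` with
`1 ≤ a ≤ A`, `n ≤ N`. Hence `∑_{a ≤ A} P_a(N) · log (N² + 1) ≥ ∑_{cells} ∑_{p ∈ cell} log p · F (√p)
≥ ∑_{cells} ∑_v Λ(v) F(√v) - (number of the prime powers p^k ≤ N², k ≥ 2) · log N²`, the last term is `≤ 8 N log N ≤ η A N`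
(at most `2 N` proper prime powers, or use `Chebyshev.psi - theta ≤ C √x` in Mathlib). By TRI and the prime number
theorem (in the starting tree: the tool used by `Pool.Agent.N792.x10`) each cell contributes at least
`(J - 1) δ (1 - η') (X' - X) = κ (1 - 1/J) (1 - η') (X' - X) ≥ A (1 - 1/J) (1 - η') (√X' - √X) √X / √X' ` (as
`X' - X = (√X' - √X)(√X' + √X)`), and the sum over the cells is at least `A N (1 - η)`. -/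
def S_FM : Prop := ∀ ε η : ℝ, 0 < ε → 0 < η → ∃ N₀ : ℕ, ∀ N : ℕ, N₀ ≤ N → ∀ A : ℕ, (N : ℝ) ^ (1 / 2 + ε) ≤ A →
  (A : ℝ) ≤ (N : ℝ) ^ (9 / 10 : ℝ) →
  (1 - η) * (A * N / (2 * Real.log N)) ≤ ∑ a ∈ Icc 1 A, (P (a : ℕ) N : ℝ)

/-- **UP**: pointwise upper bound with the sieve product. Proof: `Pool.Agent.N792.fl_poly 1 _ 0` with `m = 1`, `b0 = C1`,
`n1 = 0`, `n2 = N` and the largest `J` with `(2 ^ 2 ^ J) ^ (2 C1²) ≤ N` (so that `2 ^ 2 ^ J ≥ N^(1 / (4 C1²))` by the doubling of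
the exponent): the number of the `n ≤ N` with `n² + a` free of primes `≤ z = 2 ^ 2 ^ J` is at most `2 N Vc z + N^(1/2 + 1/10)`; the
other primes `n² + a ≤ z` contribute at most `z`. -/
def S_UP : Prop := ∃ C : ℝ, 1 ≤ C ∧ ∃ κ : ℝ, 0 < κ ∧ κ ≤ 1 / 10 ∧ ∃ N₀ : ℕ, ∀ N : ℕ, N₀ ≤ N → ∃ J : ℕ,
  (N : ℝ) ^ κ ≤ ((2 ^ 2 ^ J : ℕ) : ℝ) ∧ ((2 ^ 2 ^ J : ℕ) : ℝ) ≤ (N : ℝ) ^ (1 / 10 : ℝ) ∧
  ∀ a : ℕ, (P a N : ℝ) ≤ C * N * Vc 1 0 a (2 ^ 2 ^ J) + C * (N : ℝ) ^ (3 / 4 : ℝ)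

/-- **SQ**: second moment of the truncated singular series over `1 ≤ a ≤ A`. Proof. Let `w = 2 ^ 2 ^ Jw ≤ (log N)^E` and
`w₀ = min (w, ⌊(log N) / 8⌋)`. Pointwise `Vc w / V1 w ≤ (Vc w₀ / V1 w₀) ∏_{w₀ < p ≤ w} (1 - 1/p)^(-1) ≤ C_E (Vc w₀ / V1 w₀)` by
Mertens (upper bound for `V1 w₀ / V1 w`; `Vc w ≤ Vc w₀`). The function `a ↦ (Vc 1 0 a w₀ / V1 w₀)²` has the period
`W = ∏_{p ≤ w₀} p ≤ 4^{w₀} ≤ N^(1/4)` (`primorial_le_4_pow`), so its sum over `1 ≤ a ≤ A` is at most `(A / W + 1) ≤ 2 A / W` times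
the sum over a period, which by the Chinese remainder theorem is `∏_{p ≤ w₀} ∑_{a mod p} ((1 - ρ_a(p)/p) / (1 - 1/p))²`. For
`p > 2`: `ρ_a(p) = 1 + (-a | p)` (`0 ≤ ρ ≤ 2`, `∑_a ρ_a(p) = p`, since for every `n` there is exactly one `a`;
`∑_a ρ_a(p)² ≤ 2 p`), so `∑_a (1 - ρ/p)² ≤ p - 2 + 2/p`, and the factor is at most `p (1 - 2/p + 2/p²) / (1 - 1/p)²
≤ p (1 + 4 / p²)`; for `p = 2` it is at most `8`. So the product is at most `W · 4 ∏ (1 + 4/p²) ≤ C W`. -/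
def S_SQ : Prop := ∀ E : ℕ, ∃ C : ℝ, 1 ≤ C ∧ ∃ N₀ : ℕ, ∀ N : ℕ, N₀ ≤ N → ∀ A Jw : ℕ, (N : ℝ) ^ (1 / 2 : ℝ) ≤ A → A ≤ N →
  ((2 ^ 2 ^ Jw : ℕ) : ℝ) ≤ Real.log N ^ E →
  ∑ a ∈ Icc 1 A, (Vc 1 0 (a : ℕ) (2 ^ 2 ^ Jw) / V1 (2 ^ 2 ^ Jw)) ^ 2 ≤ C * A

/-- **AV**: the first moment of the truncated singular series is at most `(1 + η) A`. Proof: as
`Pool.Agent.N792.vc_mean_half` (`Pool/Agent/N792/RX8.lean`), with `b1 = C1 + ⌈log₂ (2/η)⌉ + 1`, `b2 = C2 + ...` instead of the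
exponents there, so that the relative errors `(1/2)^b1`, `(1/2)^b2` are at most `η / 8`. (In `vc_mean_half` the constant `10`
comes from relative errors `1/2`.) Or by the period argument in SQ with the mean over a period of each factor being exactly
`1`, together with the second moment of the tail. -/
def S_AV : Prop := ∀ (E : ℕ) (η : ℝ), 0 < η → ∃ N₀ : ℕ, ∀ N : ℕ, N₀ ≤ N → ∀ A Jw : ℕ, (N : ℝ) ^ (1 / 2 : ℝ) ≤ A →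
  A ≤ N → ((2 ^ 2 ^ Jw : ℕ) : ℝ) ≤ Real.log N ^ E →
  ∑ a ∈ Icc 1 A, Vc 1 0 (a : ℕ) (2 ^ 2 ^ Jw) / V1 (2 ^ 2 ^ Jw) ≤ (1 + η) * A

end Run7.h757.BP
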