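import Mathlib
import Pool.Agent.Run7.h757.BP.Stm
import Pool.Agent.H373R2.T7.BilF

set_option autoImplicit false

/-!
# Project BP: bilinear sums with a condition on the product
-/

namespace Run7.h757.BP.Bil

open Finset
open Pool.Agent.H469R2.NK (e e_add norm_e norm_sum_neg kusmin_landau_mono)

lemma e_eq_ee (x : ℝ) : e x = Pool.Agent.H807R2.Dav.ee x := by
  rw [Pool.Agent.H807R2.Dav.ee_eq]
  rfl

lemma orth (G : ℕ) (hG : 1 ≤ G) (k : ℤ) :
    ∑ r ∈ range G, e ((r : ℝ) * ((k : ℝ) / G)) = if (G : ℤ) ∣ k then (G : ℂ) else 0 := by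
  simp_rw [e_eq_ee]
  exact Pool.Agent.H373R2.T7.orth G hG k

/-- the kernel -/
noncomputable def DD (G Z r : ℕ) : ℂ := ∑ z ∈ range (Z + 1), e (-((z : ℝ) * ((r : ℝ) / G)))

/-- the bound of the kernel -/
noncomputable def wt (G r : ℕ) : ℝ := if r = 0 then (G : ℝ) else 2 * G * (1 / (r : ℝ) + 1 / ((G - r : ℕ) : ℝ))

lemma wt_pos {G r : ℕ} (hG : 1 ≤ G) : 0 < wt G r := by
  unfold wt
  split_ifs with h
  · exact_mod_cast hG
  · have h1 : (0 : ℝ) < r := by exact_mod_cast Nat.pos_of_ne_zero h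
    have h2 : (0 : ℝ) < G := by exact_mod_cast hG
    positivity

lemma DD_le {G Z r : ℕ} (hZ : Z + 1 ≤ G) (hr : r < G) : ‖DD G Z r‖ ≤ wt G r := by
  have hG0 : (0 : ℝ) < G := by exact_mod_cast (by omega : 0 < G)
  unfold wt
  split_ifs with h
  · unfold DD
    refine (norm_sum_le _ _).trans ?_
    simp only [norm_e, sum_const, card_range, nsmul_eq_mul, mul_one]
    exact_mod_cast hZ
  · have hr0 : (0 : ℝ) < r := by exact_mod_cast Nat.pos_of_ne_zero h
    have hs : ((G - r : ℕ) : ℝ) = G - r := by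
      rw [Nat.cast_sub hr.le]
    have hr1 : (r : ℝ) < G := by exact_mod_cast hr
    obtain ⟨θ, hθ⟩ : ∃ θ : ℝ, θ = min ((r : ℝ) / G) (1 - (r : ℝ) / G) := ⟨_, rfl⟩
    have ht1 : (r : ℝ) / G < 1 := by rw [div_lt_one hG0]; exact hr1
    have ht0 : 0 < (r : ℝ) / G := by positivity
    have hθ0 : 0 < θ := by rw [hθ]; exact lt_min ht0 (by linarith)
    have hθ1 : θ ≤ (r : ℝ) / G := by rw [hθ]; exact min_le_left _ _
    have hθ2 : θ ≤ 1 - (r : ℝ) / G := by rw [hθ]; exact min_le_right _ _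
    have hk := kusmin_landau_mono (fun n : ℕ => (n : ℝ) * ((r : ℝ) / G)) (Z + 1) hθ0
      (fun n _ => by push_cast; linarith) (fun n _ => by push_cast; linarith) (fun n _ => by push_cast; linarith)
    unfold DD
    rw [norm_sum_neg (fun n : ℕ => (n : ℝ) * ((r : ℝ) / G))]
    refine hk.trans ?_
    have h1 : 2 / θ ≤ 2 / ((r : ℝ) / G) + 2 / (1 - (r : ℝ) / G) := by
      have c1 : 0 < 2 / ((r : ℝ) / G) := by positivity
      have c2 : 0 < 2 / (1 - (r : ℝ) / G) := div_pos two_pos (by linarith)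
      rcases min_choice ((r : ℝ) / G) (1 - (r : ℝ) / G) with hm | hm
      · rw [hθ, hm]; linarith
      · rw [hθ, hm]; linarith
    refine h1.trans (le_of_eq ?_)
    rw [hs]
    have : (G : ℝ) - r ≠ 0 := by linarith
    field_simp

lemma wt_sum (G : ℕ) (hG : 1 ≤ G) : ∑ r ∈ range G, wt G r ≤ G * (5 + 4 * Real.log G) := by
  have hG0 : (0 : ℝ) < G := by exact_mod_cast hG
  have h1 : ∑ r ∈ range G, wt G r = G + ∑ r ∈ Ico 1 G, 2 * G * (1 / (r : ℝ) + 1 / ((G - r : ℕ) : ℝ)) := by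
    rw [Finset.range_eq_Ico, Finset.sum_eq_sum_Ico_succ_bot (by omega)]
    congr 1
    refine sum_congr rfl fun r hr => ?_
    rw [mem_Ico] at hr
    unfold wt
    rw [if_neg (by omega)]
  have h2 : ∑ r ∈ Ico 1 G, 1 / ((G - r : ℕ) : ℝ) = ∑ r ∈ Ico 1 G, 1 / (r : ℝ) := by
    apply Finset.sum_nbij' (fun r => G - r) (fun r => G - r)
    · intro r hr; rw [mem_Ico] at hr ⊢; omega
    · intro r hr; rw [mem_Ico] at hr ⊢; omega
    · intro r hr; rw [mem_Ico] at hr; omega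
    · intro r hr; rw [mem_Ico] at hr; omega
    · intro r _; rfl
  have h3 := Pool.Agent.Q83.WG.harm G hG
  rw [h1, ← mul_sum, sum_add_distrib, h2]
  nlinarith

lemma ind (G J Z j : ℕ) (hG : G = 2 * J + 1) (hj : j ≤ 2 * J) (hZ : Z ≤ 2 * J) :
    (if j ≤ Z then (1 : ℂ) else 0) = (1 / (G : ℂ)) * ∑ r ∈ range G, e ((j : ℝ) * ((r : ℝ) / G)) * DD G Z r := by
  have hG1 : 1 ≤ G := by omega
  have hGc : (G : ℂ) ≠ 0 := by exact_mod_cast (by omega : G ≠ 0)
  have h1 : ∑ r ∈ range G, e ((j : ℝ) * ((r : ℝ) / G)) * DD G Z r =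
      ∑ z ∈ range (Z + 1), (if (G : ℤ) ∣ ((j : ℤ) - z) then (G : ℂ) else 0) := by
    unfold DD
    simp_rw [mul_sum]
    rw [sum_comm]
    refine sum_congr rfl fun z _ => ?_
    rw [← orth G hG1]
    refine sum_congr rfl fun r _ => ?_
    rw [← e_add]
    congr 1
    push_cast
    ring
  have h2 : ∀ z ∈ range (Z + 1), (if (G : ℤ) ∣ ((j : ℤ) - z) then (G : ℂ) else 0) = if z = j then (G : ℂ) else 0 := by
    intro z hz
    rw [mem_range] at hz
    have h3 : (G : ℤ) ∣ ((j : ℤ) - z) ↔ z = j := by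
      constructor
      · intro h
        by_contra hne
        have h4 := Int.le_of_dvd (abs_pos.2 (sub_ne_zero.2 (by exact_mod_cast (Ne.symm hne) : (j : ℤ) ≠ z)))
          ((dvd_abs _ _).2 h)
        have h5 : |(j : ℤ) - z| ≤ 2 * J := by
          rw [abs_le]
          constructor <;> omega
        omega
      · rintro rfl
        simp
    simp only [h3]
  rw [h1, sum_congr rfl h2, Finset.sum_ite_eq' (range (Z + 1)) j]
  simp only [mem_range]
  by_cases hc : j ≤ Z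
  · rw [if_pos hc, if_pos (by omega)]
    field_simp
  · rw [if_neg hc, if_neg (by omega), mul_zero]

/-- numerical part -/
lemma num {x H K J s q : ℝ} (hH : 1 ≤ H) (hK : 0 < K) (hJ : 0 < J) (hKJ : K ≤ J)
    (h1 : K * J ≤ 2 * x) (h2 : x < 4 * (K * J)) (hq : 1 ≤ q) (hx : x = q ^ 8) (hs : s = q ^ 4) (hKq : q ^ 2 ≤ 4 * K)
    {A D : ℝ} (hA0 : 0 ≤ A) (hA : A ≤ 2 * s) (hD0 : 0 ≤ D) (hD : D ≤ H * (2 * K / s)) :
    (J * (H * A + J)) * (D * K + D * H ^ 2 + H * K + H ^ 2) ≤ 400 * (H * q ^ 14 + H ^ 4 * q ^ 8) := by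
  have hq0 : 0 < q := by linarith
  have hs0 : 0 < s := by rw [hs]; positivity
  have hH0 : 0 < H := by linarith
  have hss : s * s = x := by rw [hs, hx]; ring
  -- sizes
  have hJ1 : J ≤ 8 * q ^ 6 := by
    have c1 : q ^ 2 * J ≤ 8 * q ^ 8 := by
      calc q ^ 2 * J ≤ 4 * K * J := by gcongr
        _ = 4 * (K * J) := by ring
        _ ≤ 4 * (2 * x) := by gcongr
        _ = 8 * q ^ 8 := by rw [hx]; ring
    have c2 : q ^ 2 * J ≤ q ^ 2 * (8 * q ^ 6) := by
      refine c1.trans (le_of_eq (by ring))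
    exact le_of_mul_le_mul_left c2 (by positivity)
  have hK1 : K ≤ 2 * s := by
    have c1 : K * K ≤ (2 * s) * (2 * s) := by
      calc K * K ≤ K * J := by gcongr
        _ ≤ 2 * x := h1
        _ ≤ 4 * x := by rw [hx]; have : 0 ≤ q ^ 8 := by positivity
                        linarith
        _ = _ := by rw [← hss]; ring
    by_contra hcon
    push Not at hcon
    have : (2 * s) * (2 * s) < K * K := by
      apply mul_self_lt_mul_self (by positivity) hcon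
    linarith
  -- the second factor
  have e1 : D * K ≤ 4 * (H * K) := by
    calc D * K ≤ H * (2 * K / s) * K := by gcongr
      _ = 2 * (H * K) * (K / s) := by ring
      _ ≤ 2 * (H * K) * 2 := by
          gcongr
          rw [div_le_iff₀ hs0]
          exact hK1
      _ = _ := by ring
  have e2 : D * H ^ 2 ≤ 2 * (H ^ 3 * K / s) := by
    calc D * H ^ 2 ≤ H * (2 * K / s) * H ^ 2 := by gcongr
      _ = _ := by ring
  have e3 : H ^ 2 ≤ 2 * (H * K + H ^ 3 * K / s) := by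
    have c1 : q ^ 2 * H ≤ s + H ^ 2 := by
      rw [hs]
      nlinarith [sq_nonneg (q ^ 2 - H), sq_nonneg (q ^ 2), sq_nonneg H]
    have c2 : H * (q ^ 2 * H) ≤ H * (s + H ^ 2) := mul_le_mul_of_nonneg_left c1 hH0.le
    have c3 : q ^ 2 * (q ^ 2 * H ^ 2) ≤ (4 * K) * (H * (s + H ^ 2)) := by
      calc q ^ 2 * (q ^ 2 * H ^ 2) = q ^ 2 * (H * (q ^ 2 * H)) := by ring
        _ ≤ (4 * K) * (H * (s + H ^ 2)) := by gcongr
    have c1' : 2 * (q ^ 2 * H) ≤ s + H ^ 2 := by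
      rw [hs]
      nlinarith [sq_nonneg (q ^ 2 - H)]
    have c3' : q ^ 2 * (2 * (q ^ 2 * H ^ 2)) ≤ (4 * K) * (H * (s + H ^ 2)) := by
      calc q ^ 2 * (2 * (q ^ 2 * H ^ 2)) = q ^ 2 * (H * (2 * (q ^ 2 * H))) := by ring
        _ ≤ (4 * K) * (H * (s + H ^ 2)) := by gcongr
    have c4 : s * H ^ 2 ≤ s * (2 * (H * K + H ^ 3 * K / s)) := by
      have c5 : s * (2 * (H * K + H ^ 3 * K / s)) = 2 * K * (H * (s + H ^ 2)) := by field_simp
      rw [c5]
      have c6 : q ^ 2 * (2 * (q ^ 2 * H ^ 2)) = 2 * (s * H ^ 2) := by rw [hs]; ring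
      rw [c6] at c3'
      linarith
    exact le_of_mul_le_mul_left c4 hs0
  have e4 : D * K + D * H ^ 2 + H * K + H ^ 2 ≤ 7 * (H * K + H ^ 3 * K / s) := by
    have c1 : 0 ≤ H * K := by positivity
    have c2 : 0 ≤ H ^ 3 * K / s := by positivity
    linarith
  have e5 : J * (H * A + J) ≤ J * (2 * (H * s) + 8 * q ^ 6) := by
    have c1 : H * A ≤ 2 * (H * s) := by
      calc H * A ≤ H * (2 * s) := by gcongr
        _ = _ := by ring
    gcongr
  have hf1 : 0 ≤ D * K + D * H ^ 2 + H * K + H ^ 2 := by positivity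
  calc (J * (H * A + J)) * (D * K + D * H ^ 2 + H * K + H ^ 2) ≤
      (J * (2 * (H * s) + 8 * q ^ 6)) * (7 * (H * K + H ^ 3 * K / s)) :=
        mul_le_mul e5 e4 hf1 (by positivity)
    _ = 7 * (K * J) * (H * (1 + H ^ 2 / s)) * (2 * (H * s) + 8 * q ^ 6) := by
        field_simp
    _ ≤ 7 * (2 * x) * (H * (1 + H ^ 2 / s)) * (2 * (H * s) + 8 * q ^ 6) := by gcongr
    _ ≤ 400 * (H * q ^ 14 + H ^ 4 * q ^ 8) := by
        rw [hx]
        rcases le_total (H ^ 2) s with hc | hc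
        · have d1 : 1 + H ^ 2 / s ≤ 2 := by
            have : H ^ 2 / s ≤ 1 := by rw [div_le_one hs0]; exact hc
            linarith
          have d2 : H ≤ q ^ 2 := by
            by_contra hcon
            push Not at hcon
            have : (q ^ 2) ^ 2 < H ^ 2 := pow_lt_pow_left₀ hcon (by positivity) (by norm_num)
            rw [hs] at hc
            nlinarith
          have d3 : H * s ≤ q ^ 6 := by
            rw [hs]
            calc H * q ^ 4 ≤ q ^ 2 * q ^ 4 := by gcongr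
              _ = q ^ 6 := by ring
          calc 7 * (2 * q ^ 8) * (H * (1 + H ^ 2 / s)) * (2 * (H * s) + 8 * q ^ 6) ≤
              7 * (2 * q ^ 8) * (H * 2) * (2 * q ^ 6 + 8 * q ^ 6) := by gcongr
            _ = 280 * (H * q ^ 14) := by ring
            _ ≤ _ := by
                have : 0 ≤ H * q ^ 14 := by positivity
                have : 0 ≤ H ^ 4 * q ^ 8 := by positivity
                linarith
        · have d1 : 1 + H ^ 2 / s ≤ 2 * (H ^ 2 / s) := by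
            have : 1 ≤ H ^ 2 / s := by rw [one_le_div hs0]; exact hc
            linarith
          have d2 : q ^ 2 ≤ H := by
            by_contra hcon
            push Not at hcon
            have : H ^ 2 < (q ^ 2) ^ 2 := pow_lt_pow_left₀ hcon hH0.le (by norm_num)
            rw [hs] at hc
            nlinarith
          have d3 : q ^ 6 ≤ H * s := by
            rw [hs]
            calc q ^ 6 = q ^ 2 * q ^ 4 := by ring
              _ ≤ H * q ^ 4 := by gcongr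
          calc 7 * (2 * q ^ 8) * (H * (1 + H ^ 2 / s)) * (2 * (H * s) + 8 * q ^ 6) ≤
              7 * (2 * q ^ 8) * (H * (2 * (H ^ 2 / s))) * (2 * (H * s) + 8 * (H * s)) := by gcongr
            _ = 280 * (H ^ 4 * q ^ 8) := by field_simp; ring
            _ ≤ _ := by
                have : 0 ≤ H * q ^ 14 := by positivity
                have : 0 ≤ H ^ 4 * q ^ 8 := by positivity
                linarith

/-- the case `K ≤ J` -/
lemma core {CT : ℝ} (hCT : 1 ≤ CT) (hT : ∀ (H K J : ℕ), 1 ≤ H → 1 ≤ K → 1 ≤ J → ∀ (α : ℕ → ℕ → ℂ) (β : ℕ → ℂ),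
    (∀ h k, ‖α h k‖ ≤ 1) → (∀ j, ‖β j‖ ≤ 1) →
    ‖∑ h ∈ Ico H (2 * H), ∑ k ∈ Ioc K (2 * K), ∑ j ∈ Ioc J (2 * J), α h k * β j * e (h * √((j : ℝ) * k))‖ ^ 2 ≤
      CT * (J * (H * √((K : ℝ) * J) + J)) *
        ((H * √((K : ℝ) / J)) * K + (H * √((K : ℝ) / J)) * H ^ 2 + H * K + H ^ 2))
    (X X' U H K J : ℕ) (c a b : ℕ → ℂ) (hH : 1 ≤ H) (hX : 1 ≤ X) (hXX : X ≤ X')
    (hX2 : X' ≤ 2 * X) (hU : X ≤ 16 * U ^ 4) (hK : 1 ≤ K) (hJ : 1 ≤ J) (hKJ : K ≤ J) (hUK : U < 2 * K) (hKJX : K * J ≤ X')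
    (hc : ∀ h, ‖c h‖ ≤ 1) (ha : ∀ m, ‖a m‖ ≤ 1) (hb : ∀ l, ‖b l‖ ≤ 1) :
    ‖∑ k ∈ Ioc K (2 * K), ∑ j ∈ Ioc J (2 * J), a k * b j * (if X < k * j ∧ k * j ≤ X' then EE H c (k * j) else 0)‖ ≤
      (1000 * CT) * (1 + Real.log X) * (√(H : ℝ) * (X : ℝ) ^ (7 / 8 : ℝ) + (H : ℝ) ^ 2 * (X : ℝ) ^ (1 / 2 : ℝ)) := by
  classical
  have hXR : (1 : ℝ) ≤ X := by exact_mod_cast hX
  have hX0 : (0 : ℝ) < X := by linarith
  have hHR : (1 : ℝ) ≤ H := by exact_mod_cast hH
  have hKR : (1 : ℝ) ≤ K := by exact_mod_cast hK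
  have hJR : (1 : ℝ) ≤ J := by exact_mod_cast hJ
  have hlog : 0 ≤ Real.log X := Real.log_nonneg hXR
  have hR0 : 0 ≤ (1000 * CT) * (1 + Real.log X) * (√(H : ℝ) * (X : ℝ) ^ (7 / 8 : ℝ) + (H : ℝ) ^ 2 * (X : ℝ) ^ (1 / 2 : ℝ)) := by
    positivity
  by_cases hne : X < 4 * (K * J)
  swap
  · have : ∑ k ∈ Ioc K (2 * K), ∑ j ∈ Ioc J (2 * J), a k * b j * (if X < k * j ∧ k * j ≤ X' then EE H c (k * j) else 0) = 0 := by
      refine sum_eq_zero fun k hk => sum_eq_zero fun j hj => ?_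
      rw [mem_Ioc] at hk hj
      have h1 : k * j ≤ (2 * K) * (2 * J) := Nat.mul_le_mul hk.2 hj.2
      have h2 : (2 * K) * (2 * J) = 4 * (K * J) := by ring
      rw [if_neg (by omega), mul_zero]
    rw [this, norm_zero]
    exact hR0
  -- the parameters
  obtain ⟨q, hq⟩ : ∃ q : ℝ, q = (X : ℝ) ^ (1 / 8 : ℝ) := ⟨_, rfl⟩
  have hq1 : 1 ≤ q := by rw [hq]; exact Real.one_le_rpow hXR (by norm_num)
  have hq8 : (X : ℝ) = q ^ 8 := by
    rw [hq, ← Real.rpow_natCast, ← Real.rpow_mul hX0.le]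
    norm_num
  have hq7 : (X : ℝ) ^ (7 / 8 : ℝ) = q ^ 7 := by
    rw [hq, ← Real.rpow_natCast, ← Real.rpow_mul hX0.le]
    norm_num
  have hq4 : (X : ℝ) ^ (1 / 2 : ℝ) = q ^ 4 := by
    rw [hq, ← Real.rpow_natCast, ← Real.rpow_mul hX0.le]
    norm_num
  have hKJR : (K : ℝ) * J ≤ 2 * X := by exact_mod_cast hKJX.trans hX2
  have hneR : (X : ℝ) < 4 * (K * J) := by exact_mod_cast hne
  have hKq : q ^ 2 ≤ 4 * (K : ℝ) := by
    have h1 : (X : ℝ) ≤ 16 * (2 * K) ^ 4 := by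
      have h2 : X ≤ 16 * (2 * K) ^ 4 := hU.trans (Nat.mul_le_mul_left _ (Nat.pow_le_pow_left hUK.le 4))
      exact_mod_cast h2
    rw [hq8] at h1
    by_contra hcon
    push Not at hcon
    have h3 : (4 * (K : ℝ)) ^ 4 < (q ^ 2) ^ 4 := pow_lt_pow_left₀ hcon (by positivity) (by norm_num)
    have h4 : (q ^ 2) ^ 4 = q ^ 8 := by ring
    rw [h4] at h3
    nlinarith
  have hsq : √((K : ℝ) * J) ≤ 2 * q ^ 4 := by
    rw [Real.sqrt_le_left (by positivity)]
    have : (2 * q ^ 4) ^ 2 = 4 * q ^ 8 := by ring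
    rw [this, ← hq8]
    linarith
  have hsd : √((K : ℝ) / J) ≤ 2 * K / q ^ 4 := by
    rw [Real.sqrt_le_left (by positivity), div_pow, mul_pow, div_le_div_iff₀ (by positivity) (by positivity)]
    have h1 : (q ^ 4) ^ 2 = (X : ℝ) := by rw [hq8]; ring
    rw [h1]
    calc (K : ℝ) * X ≤ K * (4 * (K * J)) := by gcongr
      _ = 2 ^ 2 * (K : ℝ) ^ 2 * J := by ring
  have hnum := num (x := (X : ℝ)) (H := H) (K := K) (J := J) (s := q ^ 4) (q := q) hHR (by linarith) (by linarith)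
    (by exact_mod_cast hKJ) hKJR hneR hq1 hq8 rfl hKq (A := √((K : ℝ) * J)) (D := H * √((K : ℝ) / J))
    (by positivity) hsq (by positivity) (by gcongr)
  obtain ⟨B, hB⟩ : ∃ B : ℝ, B = √(H : ℝ) * q ^ 7 + (H : ℝ) ^ 2 * q ^ 4 := ⟨_, rfl⟩
  have hB0 : 0 ≤ B := by rw [hB]; positivity
  have hBsq : (H : ℝ) * q ^ 14 + (H : ℝ) ^ 4 * q ^ 8 ≤ B ^ 2 := by
    have h1 : √(H : ℝ) * √(H : ℝ) = H := Real.mul_self_sqrt (by linarith)
    have h2 : B ^ 2 = (√(H : ℝ) * √(H : ℝ)) * q ^ 14 + (H : ℝ) ^ 4 * q ^ 8 + 2 * (√(H : ℝ) * q ^ 7) * ((H : ℝ) ^ 2 * q ^ 4) := by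
      rw [hB]; ring
    rw [h2, h1]
    have : 0 ≤ 2 * (√(H : ℝ) * q ^ 7) * ((H : ℝ) ^ 2 * q ^ 4) := by positivity
    linarith
  -- the separation
  obtain ⟨G, hG⟩ : ∃ G : ℕ, G = 2 * J + 1 := ⟨_, rfl⟩
  have hG1 : 1 ≤ G := by omega
  have hGR : (0 : ℝ) < G := by exact_mod_cast hG1
  obtain ⟨Z2, hZ2⟩ : ∃ Z2 : ℕ → ℕ, Z2 = fun k => min (X' / k) (2 * J) := ⟨_, rfl⟩
  obtain ⟨Z1, hZ1⟩ : ∃ Z1 : ℕ → ℕ, Z1 = fun k => min (X / k) (2 * J) := ⟨_, rfl⟩
  have hind : ∀ k ∈ Ioc K (2 * K), ∀ j ∈ Ioc J (2 * J), (if X < k * j ∧ k * j ≤ X' then (1 : ℂ) else 0) =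
      (1 / (G : ℂ)) * ∑ r ∈ range G, e ((j : ℝ) * ((r : ℝ) / G)) * (DD G (Z2 k) r - DD G (Z1 k) r) := by
    intro k hk j hj
    rw [mem_Ioc] at hk hj
    have hk0 : 0 < k := by omega
    have i2 := ind G J (Z2 k) j hG hj.2 (by rw [hZ2]; exact min_le_right _ _)
    have i1 := ind G J (Z1 k) j hG hj.2 (by rw [hZ1]; exact min_le_right _ _)
    have i3 : (if X < k * j ∧ k * j ≤ X' then (1 : ℂ) else 0) = (if j ≤ Z2 k then (1 : ℂ) else 0) - (if j ≤ Z1 k then (1 : ℂ) else 0) := by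
      have c2 : j ≤ Z2 k ↔ k * j ≤ X' := by
        rw [hZ2]
        simp only [le_min_iff]
        rw [Nat.le_div_iff_mul_le hk0, mul_comm j k]
        exact ⟨fun h => h.1, fun h => ⟨h, hj.2⟩⟩
      have c1 : j ≤ Z1 k ↔ k * j ≤ X := by
        rw [hZ1]
        simp only [le_min_iff]
        rw [Nat.le_div_iff_mul_le hk0, mul_comm j k]
        exact ⟨fun h => h.1, fun h => ⟨h, hj.2⟩⟩
      by_cases d1 : k * j ≤ X
      · rw [if_neg (by omega), if_pos (c2.2 (by omega)), if_pos (c1.2 d1)]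
        ring
      · by_cases d2 : k * j ≤ X'
        · rw [if_pos ⟨by omega, d2⟩, if_pos (c2.2 d2), if_neg (fun h => d1 (c1.1 h))]
          ring
        · rw [if_neg (by omega), if_neg (fun h => d2 (c2.1 h)), if_neg (fun h => d1 (c1.1 h))]
          ring
    rw [i3, i2, i1, ← mul_sub, ← sum_sub_distrib]
    congr 1
    refine sum_congr rfl fun r _ => ?_
    ring
  obtain ⟨T, hTd⟩ : ∃ T : ℕ → ℂ, T = fun r => ∑ h ∈ Ico H (2 * H), ∑ k ∈ Ioc K (2 * K), ∑ j ∈ Ioc J (2 * J),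
    (c h * a k * (DD G (Z2 k) r - DD G (Z1 k) r)) * (b j * e ((j : ℝ) * ((r : ℝ) / G))) * e (h * √((j : ℝ) * k)) := ⟨_, rfl⟩
  have hsum : ∑ k ∈ Ioc K (2 * K), ∑ j ∈ Ioc J (2 * J), a k * b j * (if X < k * j ∧ k * j ≤ X' then EE H c (k * j) else 0) =
      (1 / (G : ℂ)) * ∑ r ∈ range G, T r := by
    have h1 : ∀ k ∈ Ioc K (2 * K), ∀ j ∈ Ioc J (2 * J), a k * b j * (if X < k * j ∧ k * j ≤ X' then EE H c (k * j) else 0) =
        (1 / (G : ℂ)) * ∑ r ∈ range G, ∑ h ∈ Ico H (2 * H),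
          (c h * a k * (DD G (Z2 k) r - DD G (Z1 k) r)) * (b j * e ((j : ℝ) * ((r : ℝ) / G))) * e (h * √((j : ℝ) * k)) := by
      intro k hk j hj
      have h2 : (if X < k * j ∧ k * j ≤ X' then EE H c (k * j) else 0) =
          (if X < k * j ∧ k * j ≤ X' then (1 : ℂ) else 0) * EE H c (k * j) := by
        split_ifs <;> simp
      rw [h2, hind k hk j hj]
      unfold EE
      rw [mul_assoc (1 / (G : ℂ)), sum_mul]
      simp_rw [mul_sum]
      refine sum_congr rfl fun r _ => sum_congr rfl fun h _ => ?_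
      have h3 : ((k * j : ℕ) : ℝ) = (j : ℝ) * k := by push_cast; ring
      rw [h3]
      ring
    rw [sum_congr rfl fun k hk => sum_congr rfl fun j hj => h1 k hk j hj]
    simp_rw [← mul_sum]
    congr 1
    rw [hTd]
    dsimp only
    have h4 : ∀ k ∈ Ioc K (2 * K), ∑ j ∈ Ioc J (2 * J), ∑ r ∈ range G, ∑ h ∈ Ico H (2 * H),
          (c h * a k * (DD G (Z2 k) r - DD G (Z1 k) r)) * (b j * e ((j : ℝ) * ((r : ℝ) / G))) * e (h * √((j : ℝ) * k)) =
        ∑ r ∈ range G, ∑ h ∈ Ico H (2 * H), ∑ j ∈ Ioc J (2 * J),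
          (c h * a k * (DD G (Z2 k) r - DD G (Z1 k) r)) * (b j * e ((j : ℝ) * ((r : ℝ) / G))) * e (h * √((j : ℝ) * k)) := by
      intro k _
      rw [sum_comm]
      exact sum_congr rfl fun r _ => sum_comm
    rw [sum_congr rfl h4, sum_comm]
    exact sum_congr rfl fun r _ => sum_comm
  have hTr : ∀ r ∈ range G, ‖T r‖ ≤ 2 * wt G r * (20 * CT * B) := by
    intro r hr
    rw [mem_range] at hr
    have hw := wt_pos (G := G) (r := r) hG1
    have hwc : ((2 * wt G r : ℝ) : ℂ) ≠ 0 := by exact_mod_cast (by positivity : (2 * wt G r : ℝ) ≠ 0)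
    have hα : ∀ h k : ℕ, ‖c h * a k * (DD G (Z2 k) r - DD G (Z1 k) r) / ((2 * wt G r : ℝ) : ℂ)‖ ≤ 1 := by
      intro h k
      rw [norm_div, Complex.norm_real, Real.norm_of_nonneg (by positivity), div_le_one (by positivity), norm_mul, norm_mul]
      have g2 : ‖DD G (Z2 k) r‖ ≤ wt G r := DD_le (by rw [hZ2, hG]; exact Nat.succ_le_succ (min_le_right _ _)) hr
      have g1 : ‖DD G (Z1 k) r‖ ≤ wt G r := DD_le (by rw [hZ1, hG]; exact Nat.succ_le_succ (min_le_right _ _)) hr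
      have g3 : ‖DD G (Z2 k) r - DD G (Z1 k) r‖ ≤ 2 * wt G r := (norm_sub_le _ _).trans (by linarith)
      have g4 : ‖c h‖ * ‖a k‖ ≤ 1 := mul_le_one₀ (hc h) (norm_nonneg _) (ha k)
      calc ‖c h‖ * ‖a k‖ * ‖DD G (Z2 k) r - DD G (Z1 k) r‖ ≤ 1 * (2 * wt G r) :=
            mul_le_mul g4 g3 (norm_nonneg _) zero_le_one
        _ = _ := one_mul _
    have hβ : ∀ j : ℕ, ‖b j * e ((j : ℝ) * ((r : ℝ) / G))‖ ≤ 1 := by
      intro j
      rw [norm_mul, norm_e, mul_one]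
      exact hb j
    have h1 := hT H K J hH hK hJ (fun h k => c h * a k * (DD G (Z2 k) r - DD G (Z1 k) r) / ((2 * wt G r : ℝ) : ℂ))
      (fun j => b j * e ((j : ℝ) * ((r : ℝ) / G))) hα hβ
    have h2 : T r = ((2 * wt G r : ℝ) : ℂ) * ∑ h ∈ Ico H (2 * H), ∑ k ∈ Ioc K (2 * K), ∑ j ∈ Ioc J (2 * J),
        (c h * a k * (DD G (Z2 k) r - DD G (Z1 k) r) / ((2 * wt G r : ℝ) : ℂ)) * (b j * e ((j : ℝ) * ((r : ℝ) / G))) *
          e (h * √((j : ℝ) * k)) := by
      rw [hTd]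
      simp_rw [mul_sum]
      refine sum_congr rfl fun h _ => sum_congr rfl fun k _ => sum_congr rfl fun j _ => ?_
      field_simp
    rw [h2, norm_mul, Complex.norm_real, Real.norm_of_nonneg (by positivity)]
    apply mul_le_mul_of_nonneg_left _ (by positivity)
    apply le_of_sq_le_sq _ (by positivity)
    refine h1.trans ?_
    have h3 : CT * (J * (H * √((K : ℝ) * J) + J)) *
        ((H * √((K : ℝ) / J)) * K + (H * √((K : ℝ) / J)) * H ^ 2 + H * K + H ^ 2) ≤ CT * (400 * B ^ 2) := by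
      rw [mul_assoc CT]
      apply mul_le_mul_of_nonneg_left _ (by linarith)
      refine hnum.trans ?_
      linarith
    refine h3.trans ?_
    have h4 : (20 * CT * B) ^ 2 = CT * CT * (400 * B ^ 2) := by ring
    rw [h4]
    have h5 : 0 ≤ 400 * B ^ 2 := by positivity
    have h6 : CT ≤ CT * CT := by nlinarith
    exact mul_le_mul_of_nonneg_right h6 h5
  rw [hsum, norm_mul]
  have hn1 : ‖(1 / (G : ℂ))‖ = 1 / G := by
    rw [norm_div, norm_one, Complex.norm_natCast]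
  rw [hn1]
  have hws := wt_sum G hG1
  have hGl : Real.log G ≤ 2 + Real.log X := by
    have h1 : (G : ℝ) ≤ 5 * X := by
      have h2 : J ≤ K * J := Nat.le_mul_of_pos_left _ (by omega)
      have h3 : G ≤ 5 * X := by omega
      exact_mod_cast h3
    have h2 := Real.log_le_log hGR h1
    rw [Real.log_mul (by norm_num) hX0.ne'] at h2
    have h3 : Real.log 5 ≤ 2 := by
      rw [Real.log_le_iff_le_exp (by norm_num)]
      have := Real.add_one_le_exp (1 : ℝ)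
      have h4 : Real.exp 2 = Real.exp 1 * Real.exp 1 := by rw [← Real.exp_add]; norm_num
      have h5 := Real.exp_one_gt_d9
      rw [h4]
      nlinarith
    linarith
  calc 1 / (G : ℝ) * ‖∑ r ∈ range G, T r‖ ≤ 1 / (G : ℝ) * ∑ r ∈ range G, 2 * wt G r * (20 * CT * B) := by
        apply mul_le_mul_of_nonneg_left _ (by positivity)
        exact (norm_sum_le _ _).trans (sum_le_sum hTr)
    _ = 1 / (G : ℝ) * ((∑ r ∈ range G, wt G r) * (40 * CT * B)) := by
        rw [sum_mul]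
        congr 1
        refine sum_congr rfl fun r _ => ?_
        ring
    _ ≤ 1 / (G : ℝ) * ((G * (5 + 4 * Real.log G)) * (40 * CT * B)) := by gcongr
    _ = (5 + 4 * Real.log G) * (40 * CT * B) := by field_simp
    _ ≤ (5 + 4 * (2 + Real.log X)) * (40 * CT * B) := by gcongr
    _ ≤ (1000 * CT) * (1 + Real.log X) * B := by
        have h1 : 0 ≤ CT * B := by positivity
        have h2 : 0 ≤ CT * B * Real.log X := by positivity
        nlinarith
    _ = _ := by rw [hB, hq7, hq4]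

theorem bil (htii : S_TII) : S_BIL := by
  obtain ⟨CT, hCT, hT⟩ := htii
  refine ⟨1000 * CT, by linarith, ?_⟩
  intro X X' U H M L c a b hH _ hX hXX hX2 hU hM hL hUM hUL hML hc ha hb
  rcases le_total M L with h | h
  · exact core hCT hT X X' U H M L c a b hH hX hXX hX2 hU hM hL h hUM hML hc ha hb
  · have h1 := core hCT hT X X' U H L M c b a hH hX hXX hX2 hU hL hM h hUL (by rw [mul_comm]; exact hML) hc hb ha
    refine le_trans (le_of_eq ?_) h1
    congr 1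
    rw [sum_comm]
    refine sum_congr rfl fun l _ => sum_congr rfl fun m _ => ?_
    rw [mul_comm m l]
    ring

end Run7.h757.BP.Bil
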