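import Mathlib
import Pool.Agent.Run7.h757.BP.Stm
import Pool.Agent.N792.T9Q
import Pool.Agent.N792.T7S
import Pool.Agent.N792.RX8
import Pool.Agent.N792.Rav

set_option autoImplicit false

/-!
# Project BP: a positive proportion of the `a ≤ A`, assembly
-/

namespace Run7.h757.BP.Fin

open Finset Filter Topology
open Pool.Agent.N792

/-- the product of `1 - (-a | w) / (w - 1)` over the odd primes `w ≤ X` -/
noncomputable def hprod (a : ℤ) (X : ℕ) : ℝ :=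
  ∏ w ∈ (range (X + 1)).filter (fun w => Nat.Prime w ∧ w ≠ 2), (1 - (jacobiSym (-a) w : ℝ) / ((w : ℝ) - 1))

/-- the conclusion for one `a` -/
def GoodA (η : ℝ) (N a : ℕ) : Prop :=
  ∃ h : ℝ, 0 < h ∧ Tendsto (fun X : ℕ => hprod a X) atTop (𝓝 h) ∧
    (1 - η) * (1 / 2 * h * ∫ t in (2 : ℝ)..(N : ℝ), 1 / Real.log t) ≤ P a N

lemma int_nonneg {N : ℕ} (hN : 2 ≤ N) : 0 ≤ ∫ t in (2 : ℝ)..(N : ℝ), 1 / Real.log t := by
  apply intervalIntegral.integral_nonneg (by exact_mod_cast hN)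
  intro t ht
  rw [Set.mem_Icc] at ht
  have := Real.log_nonneg (show (1 : ℝ) ≤ t by linarith)
  positivity

lemma GoodA.mono {η η' : ℝ} {N a : ℕ} (hN : 2 ≤ N) (h : η' ≤ η) (hg : GoodA η' N a) : GoodA η N a := by
  obtain ⟨H, h0, h1, h2⟩ := hg
  refine ⟨H, h0, h1, le_trans ?_ h2⟩
  apply mul_le_mul_of_nonneg_right (by linarith)
  have := int_nonneg hN
  positivity

lemma P_le (a N : ℕ) : (P a N : ℝ) ≤ N := by
  unfold P
  have := card_filter_le (Icc 1 N) (fun n : ℕ => Nat.Prime ((n : ℤ) ^ 2 + (a : ℕ)).natAbs)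
  rw [Nat.card_Icc, Nat.add_sub_cancel] at this
  exact_mod_cast this

lemma eps_one : eps 1 0 = 1 := by unfold eps; norm_num
lemma gcdProd_one : gcdProd 1 0 = 1 := by unfold gcdProd; simp

lemma rpow_ge_log (κ : ℝ) (hκ : 0 < κ) (E : ℕ) (c : ℝ) (hc : 0 < c) : ∀ᶠ N : ℕ in atTop, c * Real.log N ^ E ≤ (N : ℝ) ^ κ := by
  have h := isLittleO_log_rpow_atTop (show 0 < κ / (E + 1) by positivity)
  have h2 : ∀ᶠ x : ℝ in atTop, Real.log x ≤ x ^ (κ / (E + 1)) := by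
    filter_upwards [h.bound one_pos, eventually_ge_atTop 1] with x hx hx1
    rw [one_mul, Real.norm_of_nonneg (Real.log_nonneg hx1), Real.norm_of_nonneg (by positivity)] at hx
    exact hx
  have h3 : ∀ᶠ x : ℝ in atTop, c ≤ x ^ (κ / (E + 1)) := (tendsto_rpow_atTop (by positivity)).eventually_ge_atTop c
  have h4 := (h2.and (h3.and (eventually_ge_atTop (1 : ℝ))))
  filter_upwards [tendsto_natCast_atTop_atTop.eventually h4] with N hN
  obtain ⟨g1, g2, g3⟩ := hN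
  have g4 : 0 ≤ Real.log N := Real.log_nonneg g3
  have g5 : (0 : ℝ) ≤ (N : ℝ) ^ (κ / (E + 1)) := by positivity
  calc c * Real.log N ^ E ≤ (N : ℝ) ^ (κ / (E + 1)) * ((N : ℝ) ^ (κ / (E + 1))) ^ E := by gcongr
    _ = ((N : ℝ) ^ (κ / (E + 1))) ^ (E + 1) := by ring
    _ = (N : ℝ) ^ κ := by
        rw [← Real.rpow_natCast, ← Real.rpow_mul (by linarith)]
        congr 1
        push_cast
        field_simp

/-- the numerical part -/
lemma numeric {η θ C2 C3 t NL FM G A S : ℝ} (hη : 0 < η) (hη1 : η ≤ 1 / 2) (hθ : θ = η / 16) (hC2 : 0 < C2) (hC3 : 0 < C3)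
    (ht : t = η / (8 * C2 * C3)) (hNL : 0 < NL) (hA : 0 < A) (hFM : (1 - θ) * (A * NL / 2) ≤ FM)
    (hS : S ≤ G / (2 * t) + t / 2 * (C3 * A))
    (h : FM ≤ θ * (A * NL) + (1 - η) * (1 / 2) * (1 + θ) ^ 2 * NL * ((1 + θ) * A) + C2 * NL * S + θ * (A * NL)) :
    η ^ 2 / (64 * C2 ^ 2 * C3) * A ≤ G := by
  have hθ0 : 0 < θ := by rw [hθ]; positivity
  have hθ1 : θ ≤ 1 / 32 := by rw [hθ]; linarith
  have h1 : (1 - θ) * (A / 2) ≤ θ * A + (1 - η) * (1 / 2) * (1 + θ) ^ 2 * ((1 + θ) * A) + C2 * S + θ * A := by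
    have h2 : NL * ((1 - θ) * (A / 2)) ≤ NL * (θ * A + (1 - η) * (1 / 2) * (1 + θ) ^ 2 * ((1 + θ) * A) + C2 * S + θ * A) := by
      calc NL * ((1 - θ) * (A / 2)) = (1 - θ) * (A * NL / 2) := by ring
        _ ≤ _ := hFM.trans h
        _ = _ := by ring
    exact le_of_mul_le_mul_left h2 hNL
  have h3 : (1 + θ) ^ 3 ≤ 1 + 4 * θ := by nlinarith [sq_nonneg θ]
  have h4 : (1 - η) * (1 / 2) * (1 + θ) ^ 2 * ((1 + θ) * A) ≤ (1 - η + 4 * θ) / 2 * A := by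
    have h5 : (1 - η) * (1 + θ) ^ 3 ≤ 1 - η + 4 * θ := by
      calc (1 - η) * (1 + θ) ^ 3 ≤ (1 - η) * (1 + 4 * θ) := mul_le_mul_of_nonneg_left h3 (by linarith)
        _ ≤ 1 - η + 4 * θ := by nlinarith
    calc (1 - η) * (1 / 2) * (1 + θ) ^ 2 * ((1 + θ) * A) = (1 - η) * (1 + θ) ^ 3 / 2 * A := by ring
      _ ≤ _ := by gcongr
  have h5 : η / 8 * A ≤ C2 * S := by
    have h6 : η / 8 * A ≤ ((1 - θ) / 2 - 2 * θ - (1 - η + 4 * θ) / 2) * A := by
      apply mul_le_mul_of_nonneg_right _ hA.le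
      rw [hθ]
      linarith
    nlinarith
  have ht0 : 0 < t := by rw [ht]; positivity
  have h6 : C2 * S ≤ C2 * (G / (2 * t)) + η / 16 * A := by
    calc C2 * S ≤ C2 * (G / (2 * t) + t / 2 * (C3 * A)) := mul_le_mul_of_nonneg_left hS hC2.le
      _ = C2 * (G / (2 * t)) + (C2 * t * C3) / 2 * A := by ring
      _ = C2 * (G / (2 * t)) + η / 16 * A := by
          congr 2
          rw [ht]
          field_simp
          ring
  have h7 : η / 16 * A ≤ C2 * (G / (2 * t)) := by linarith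
  have h8 : C2 * (G / (2 * t)) = G * (4 * C2 ^ 2 * C3 / η) := by
    rw [ht]
    field_simp
    ring
  rw [h8, mul_div_assoc', le_div_iff₀ hη] at h7
  rw [div_mul_eq_mul_div, div_le_iff₀ (by positivity)]
  nlinarith

open Classical in
/-- the range `N^(1/2+ε) ≤ A ≤ N^(9/10)` -/
theorem mid (hFM : S_FM) (hUP : S_UP) (hSQ : S_SQ) (hAV : S_AV) (η : ℝ) (hη : 0 < η) (hη1 : η ≤ 1 / 2) :
    ∃ c : ℝ, 0 < c ∧ ∀ ε : ℝ, 0 < ε → ∃ N0 : ℕ, ∀ N : ℕ, N0 ≤ N → ∀ A : ℕ, (N : ℝ) ^ (1 / 2 + ε) ≤ A →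
      (A : ℝ) ≤ (N : ℝ) ^ (9 / 10 : ℝ) → c * A ≤ (#((Icc 1 A).filter (fun a => GoodA η N a)) : ℝ) := by
  obtain ⟨C1, hC1, κ, hκ, hκ1, NU, hUP⟩ := hUP
  obtain ⟨C3, hC3, NS, hSQ⟩ := hSQ 36
  obtain ⟨C2, hC2⟩ : ∃ C2 : ℝ, C2 = 2 * C1 / κ := ⟨_, rfl⟩
  have hC20 : 0 < C2 := by rw [hC2]; positivity
  obtain ⟨θ, hθ⟩ : ∃ θ : ℝ, θ = η / 16 := ⟨_, rfl⟩
  have hθ0 : 0 < θ := by rw [hθ]; positivity
  refine ⟨η ^ 2 / (64 * C2 ^ 2 * C3), by positivity, fun ε hε => ?_⟩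
  obtain ⟨NF, hFM⟩ := hFM ε θ hε hθ0
  obtain ⟨NA, hAV⟩ := hAV 36 θ hθ0
  obtain ⟨NX, hX8⟩ := x8 1 one_pos 0 3 36
  obtain ⟨M1, hM1⟩ := eventually_atTop.1 (li_upper2 θ hθ0)
  obtain ⟨M2, hM2⟩ := eventually_atTop.1 (rpow_ge_log κ hκ 36 1 one_pos)
  obtain ⟨M3, hM3⟩ := eventually_atTop.1 (rpow_ge_log (1 / 4) (by norm_num) 1 (C1 / θ) (by positivity))
  obtain ⟨M4, hM4⟩ := eventually_atTop.1 ((Real.tendsto_log_atTop.comp tendsto_natCast_atTop_atTop).eventually_ge_atTop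
    (2 + 1 / θ))
  refine ⟨NU + NS + NF + NA + NX + M1 + M2 + M3 + M4 + 10, fun N hN A hA1 hA2 => ?_⟩
  have g1 := hM1 N (by omega) 2 N le_rfl (by omega) le_rfl
  have g2 := hM2 N (by omega)
  have g3 := hM3 N (by omega)
  have g4 := hM4 N (by omega)
  simp only [Function.comp] at g4
  rw [one_mul] at g2
  rw [pow_one] at g3
  obtain ⟨L, hL⟩ : ∃ L : ℝ, L = Real.log N := ⟨_, rfl⟩
  rw [← hL] at g1 g2 g3 g4
  have hNR : (10 : ℝ) ≤ N := by exact_mod_cast (by omega : 10 ≤ N)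
  have hN0 : (0 : ℝ) < N := by linarith
  have hθi : 0 < 1 / θ := by positivity
  have hL2 : 2 ≤ L := by linarith
  have hL0 : 0 < L := by linarith
  have hL3 : 1 / L ^ 3 ≤ θ := by
    have h1 : 1 / θ ≤ L ^ 3 := by
      have : L ≤ L ^ 3 := le_self_pow₀ (by linarith) (by norm_num)
      linarith
    rw [div_le_iff₀ (by positivity)]
    rw [div_le_iff₀ hθ0] at h1
    linarith
  have hL31 : 1 / L ^ 3 ≤ 1 := by
    rw [div_le_one (by positivity)]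
    exact one_le_pow₀ (by linarith)
  -- A
  have hAhalf : (N : ℝ) ^ (1 / 2 : ℝ) ≤ A :=
    (Real.rpow_le_rpow_of_exponent_le (by linarith) (by linarith)).trans hA1
  have hA0 : (0 : ℝ) < A := lt_of_lt_of_le (by positivity) hAhalf
  have hAN : A ≤ N := by
    have h1 : (A : ℝ) ≤ (N : ℝ) ^ (1 : ℝ) :=
      hA2.trans (Real.rpow_le_rpow_of_exponent_le (by linarith) (by norm_num))
    rw [Real.rpow_one] at h1
    exact_mod_cast h1
  -- levels
  obtain ⟨J, hJ1, hJ2, hJ3⟩ := hUP N (by omega)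
  obtain ⟨Jw, hw1, hw2⟩ := exists_level (L ^ 36) (by
    have : L ≤ L ^ 36 := le_self_pow₀ (by linarith) (by norm_num)
    linarith)
  obtain ⟨z, hz⟩ : ∃ z : ℕ, z = 2 ^ 2 ^ J := ⟨_, rfl⟩
  obtain ⟨w, hw⟩ : ∃ w : ℕ, w = 2 ^ 2 ^ Jw := ⟨_, rfl⟩
  have hSQ' := hSQ N (by omega) A Jw hAhalf hAN (by rw [← hL]; exact hw1)
  have hAV' := hAV N (by omega) A Jw hAhalf hAN (by rw [← hL]; exact hw1)
  rw [← hw] at hw1 hw2 hSQ' hAV'
  rw [← hz] at hJ1 hJ2 hJ3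
  have hw18 : L ^ (3 * 3 + 9) ≤ w := by
    have h1 : (L ^ 18) ^ 2 ≤ (w : ℝ) ^ 2 := by
      refine le_trans (le_of_eq (by ring)) hw2
    exact le_of_sq_le_sq h1 (Nat.cast_nonneg _)
  have hwz : w ≤ z := by
    have h1 : (w : ℝ) ≤ z := hw1.trans (g2.trans hJ1)
    exact_mod_cast h1
  obtain ⟨Ex, hE1, hE2, hE3⟩ := hX8 N (by omega) A hAhalf hAN w z (by rw [← hL]; exact hw18) (by rw [← hL]; exact hw1) hwz
    (hJ2.trans (Real.rpow_le_rpow_of_exponent_le (by linarith) (by norm_num)))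
  rw [← hL] at hE2
  -- the function F
  obtain ⟨F, hF⟩ : ∃ F : ℕ → ℝ, F = fun a => Vc 1 0 (a : ℕ) w / V1 w := ⟨_, rfl⟩
  have hVw : 0 < V1 w := V1_pos w
  have hVz : 0 < V1 z := V1_pos z
  have hF0 : ∀ a, 0 ≤ F a := by
    intro a
    rw [hF]
    exact div_nonneg (Mtm.Vc_bd 1 0 (a : ℕ) w).1 hVw.le
  have hFa : ∀ a : ℕ, Vc 1 0 (a : ℕ) w / V1 w = F a := fun a => by rw [hF]
  simp only [hFa] at hSQ' hAV'
  have hz2 : 2 ≤ z := by
    rw [hz]
    calc 2 = 2 ^ 1 := (pow_one 2).symm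
      _ ≤ 2 ^ 2 ^ J := Nat.pow_le_pow_right (by norm_num) Nat.one_le_two_pow
  have hzR : (2 : ℝ) ≤ z := by exact_mod_cast hz2
  have hlogz : κ * L ≤ Real.log z := by
    have h1 := Real.log_le_log (by positivity) hJ1
    rw [Real.log_rpow hN0, ← hL] at h1
    exact h1
  have hV1z : V1 z ≤ 1 / (κ * L) :=
    (V1_le z hz2).trans (one_div_le_one_div_of_le (by positivity) hlogz)
  obtain ⟨NL, hNL⟩ : ∃ NL : ℝ, NL = (N : ℝ) / L := ⟨_, rfl⟩
  have hNL0 : 0 < NL := by rw [hNL]; positivity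
  -- upper bound
  have hup : ∀ a ∈ Icc 1 A, a ∉ Ex → (P a N : ℝ) ≤ C2 * NL * F a + θ * NL := by
    intro a ha haE
    obtain ⟨h1, -⟩ := hE3 a ha haE
    have h2 := (abs_le.1 h1).2
    rw [← hL] at h2
    have hVc0 : 0 ≤ Vc 1 0 (a : ℕ) w := (Mtm.Vc_bd 1 0 (a : ℕ) w).1
    have h3 : Vc 1 0 (a : ℕ) w * V1 z / L ^ 3 ≤ Vc 1 0 (a : ℕ) w * V1 z := by
      apply div_le_self (by positivity)
      exact one_le_pow₀ (by linarith)
    have h4 : Vc 1 0 (a : ℕ) z ≤ 2 * (F a * V1 z) := by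
      rw [← hFa]
      have h5 : Vc 1 0 (a : ℕ) z * V1 w ≤ (2 * (Vc 1 0 (a : ℕ) w / V1 w * V1 z)) * V1 w := by
        have h6 : (2 * (Vc 1 0 (a : ℕ) w / V1 w * V1 z)) * V1 w = 2 * (Vc 1 0 (a : ℕ) w * V1 z) := by field_simp
        rw [h6]
        linarith
      exact le_of_mul_le_mul_right h5 hVw
    have h5 := hJ3 a
    have h6 : C1 * N * Vc 1 0 (a : ℕ) z ≤ C2 * NL * F a := by
      calc C1 * N * Vc 1 0 (a : ℕ) z ≤ C1 * N * (2 * (F a * (1 / (κ * L)))) := by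
            have := hF0 a
            have h7 : Vc 1 0 (a : ℕ) z ≤ 2 * (F a * (1 / (κ * L))) := by
              refine h4.trans ?_
              gcongr
            gcongr
        _ = C2 * NL * F a := by
            rw [hC2, hNL]
            field_simp
    have h7 : C1 * (N : ℝ) ^ (3 / 4 : ℝ) ≤ θ * NL := by
      have h8 : (N : ℝ) = (N : ℝ) ^ (3 / 4 : ℝ) * (N : ℝ) ^ (1 / 4 : ℝ) := by
        rw [← Real.rpow_add hN0]
        norm_num
      rw [hNL, mul_div_assoc', le_div_iff₀ hL0]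
      have h9 : C1 * L ≤ θ * (N : ℝ) ^ (1 / 4 : ℝ) := by
        rw [div_mul_eq_mul_div, div_le_iff₀ hθ0] at g3
        linarith
      calc C1 * (N : ℝ) ^ (3 / 4 : ℝ) * L = (N : ℝ) ^ (3 / 4 : ℝ) * (C1 * L) := by ring
        _ ≤ (N : ℝ) ^ (3 / 4 : ℝ) * (θ * (N : ℝ) ^ (1 / 4 : ℝ)) := by gcongr
        _ = θ * ((N : ℝ) ^ (3 / 4 : ℝ) * (N : ℝ) ^ (1 / 4 : ℝ)) := by ring
        _ = θ * N := by rw [← h8]
    linarith
  -- the integral
  have hI : ∫ t in (2 : ℝ)..(N : ℝ), 1 / Real.log t ≤ (1 + θ) * NL := by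
    have h1 : (((2 : ℕ) : ℝ)) = 2 := by norm_num
    rw [h1] at g1
    refine g1.trans ?_
    have h2 : ((N : ℝ) - 2) / L ≤ N / L := div_le_div_of_nonneg_right (by linarith) hL0.le
    rw [hNL]
    linarith
  have hI0 := int_nonneg (show 2 ≤ N by omega)
  -- bad a
  have hbad : ∀ a ∈ Icc 1 A, a ∉ Ex → ¬ GoodA η N a → (P a N : ℝ) ≤ (1 - η) * (1 / 2) * (1 + θ) ^ 2 * NL * F a := by
    intro a ha haE hng
    obtain ⟨-, h2⟩ := hE3 a ha haE
    obtain ⟨S, hS0, hS1, hS2⟩ := h2 (adm_one a (mem_Icc.1 ha).1)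
    rw [eps_one, gcdProd_one, one_mul, mul_one, hFa, ← hL] at hS2
    have hSF : S ≤ (1 + θ) * F a := by
      have h3 := (abs_le.1 hS2).2
      have h4 : F a / L ^ 3 ≤ θ * F a := by
        calc F a / L ^ 3 = 1 / L ^ 3 * F a := by ring
          _ ≤ θ * F a := mul_le_mul_of_nonneg_right hL3 (hF0 a)
      linarith
    have hSt : Tendsto (fun X : ℕ => hprod a X) atTop (𝓝 S) := by
      refine hS1.congr fun X => ?_
      exact partialC_one a X
    have hlt : (P a N : ℝ) < (1 - η) * (1 / 2 * S * ∫ t in (2 : ℝ)..(N : ℝ), 1 / Real.log t) := by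
      by_contra hcon
      push Not at hcon
      exact hng ⟨S, hS0, hSt, hcon⟩
    refine hlt.le.trans ?_
    have hη2 : 0 ≤ 1 - η := by linarith
    calc (1 - η) * (1 / 2 * S * ∫ t in (2 : ℝ)..(N : ℝ), 1 / Real.log t) ≤
        (1 - η) * (1 / 2 * ((1 + θ) * F a) * ((1 + θ) * NL)) := by
          have := hF0 a
          gcongr
      _ = _ := by ring
  -- the sets
  obtain ⟨G, hG⟩ : ∃ G : Finset ℕ, G = (Icc 1 A).filter (fun a => GoodA η N a) := ⟨_, rfl⟩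
  rw [← hG]
  have hsplit : ∑ a ∈ Icc 1 A, (P a N : ℝ) ≤ ∑ a ∈ Ex, (P a N : ℝ) +
      ∑ a ∈ Icc 1 A, ((1 - η) * (1 / 2) * (1 + θ) ^ 2 * NL * F a) + ∑ a ∈ G, (C2 * NL * F a) + θ * (A * NL) := by
    have hη2 : 0 ≤ 1 - η := by linarith
    have h1 : ∀ a ∈ Icc 1 A, (P a N : ℝ) ≤ (if a ∈ Ex then (P a N : ℝ) else 0) +
        ((1 - η) * (1 / 2) * (1 + θ) ^ 2 * NL * F a) + (if a ∈ G then C2 * NL * F a else 0) + θ * NL := by
      intro a ha
      have hp1 : 0 ≤ (1 - η) * (1 / 2) * (1 + θ) ^ 2 * NL * F a := by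
        have := hF0 a
        positivity
      have hp2 : 0 ≤ C2 * NL * F a := by
        have := hF0 a
        positivity
      have hp3 : 0 ≤ θ * NL := by positivity
      by_cases haE : a ∈ Ex
      · rw [if_pos haE]
        split_ifs <;> linarith
      · rw [if_neg haE]
        by_cases haG : GoodA η N a
        · rw [if_pos (by rw [hG, mem_filter]; exact ⟨ha, haG⟩)]
          have := hup a ha haE
          linarith
        · have := hbad a ha haE haG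
          split_ifs <;> linarith
    refine (sum_le_sum h1).trans ?_
    rw [sum_add_distrib, sum_add_distrib, sum_add_distrib, sum_const, Nat.card_Icc, nsmul_eq_mul, Nat.add_sub_cancel]
    have e1 : ∑ a ∈ Icc 1 A, (if a ∈ Ex then (P a N : ℝ) else 0) = ∑ a ∈ Ex, (P a N : ℝ) := by
      rw [← sum_filter]
      congr 1
      ext a
      rw [mem_filter]
      exact ⟨fun h => h.2, fun h => ⟨hE1 h, h⟩⟩
    have e2 : ∑ a ∈ Icc 1 A, (if a ∈ G then C2 * NL * F a else 0) = ∑ a ∈ G, (C2 * NL * F a) := by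
      rw [← sum_filter]
      congr 1
      ext a
      rw [mem_filter]
      refine ⟨fun h => h.2, fun h => ⟨?_, h⟩⟩
      rw [hG, mem_filter] at h
      exact h.1
    rw [e1, e2]
    apply le_of_eq
    ring
  have hEx : ∑ a ∈ Ex, (P a N : ℝ) ≤ θ * (A * NL) := by
    calc ∑ a ∈ Ex, (P a N : ℝ) ≤ ∑ _a ∈ Ex, (N : ℝ) := sum_le_sum fun a _ => P_le a N
      _ = #Ex * N := by rw [sum_const, nsmul_eq_mul]
      _ ≤ (A / L ^ 3) * N := by gcongr
      _ = (A * NL) * (L / L ^ 3) := by rw [hNL]; field_simp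
      _ ≤ (A * NL) * θ := by
          apply mul_le_mul_of_nonneg_left _ (by positivity)
          have h1 : L / L ^ 3 = 1 / L ^ 2 := by field_simp
          rw [h1, div_le_iff₀ (by positivity)]
          have h2 : 1 / θ ≤ L ^ 2 := by
            have : L ≤ L ^ 2 := le_self_pow₀ (by linarith) (by norm_num)
            linarith
          rw [div_le_iff₀ hθ0] at h2
          linarith
      _ = _ := by ring
  obtain ⟨t, ht⟩ : ∃ t : ℝ, t = η / (8 * C2 * C3) := ⟨_, rfl⟩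
  have ht0 : 0 < t := by rw [ht]; positivity
  have hGF : ∑ a ∈ G, F a ≤ #G / (2 * t) + t / 2 * (C3 * A) := by
    have h1 : ∀ a ∈ G, F a ≤ 1 / (2 * t) + t / 2 * F a ^ 2 := by
      intro a _
      have h2 : 0 ≤ (t * F a - 1) ^ 2 := sq_nonneg _
      have h3 : F a * (2 * t) ≤ (1 / (2 * t) + t / 2 * F a ^ 2) * (2 * t) := by
        have e3 : (1 / (2 * t) + t / 2 * F a ^ 2) * (2 * t) = 1 + t ^ 2 * F a ^ 2 := by field_simp
        rw [e3]
        nlinarith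
      exact le_of_mul_le_mul_right h3 (by positivity)
    calc ∑ a ∈ G, F a ≤ ∑ a ∈ G, (1 / (2 * t) + t / 2 * F a ^ 2) := sum_le_sum h1
      _ = #G * (1 / (2 * t)) + t / 2 * ∑ a ∈ G, F a ^ 2 := by
          rw [sum_add_distrib, sum_const, nsmul_eq_mul, mul_sum]
      _ ≤ #G * (1 / (2 * t)) + t / 2 * (C3 * A) := by
          have h2 : ∑ a ∈ G, F a ^ 2 ≤ ∑ a ∈ Icc 1 A, F a ^ 2 := by
            apply sum_le_sum_of_subset_of_nonneg
            · rw [hG]; exact filter_subset _ _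
            · intro a _ _; positivity
          have h3 := h2.trans hSQ'
          gcongr
      _ = _ := by ring
  have hFMN := hFM N (by omega) A hA1 hA2
  have e4 : (A : ℝ) * N / (2 * Real.log N) = A * NL / 2 := by rw [hNL, ← hL]; field_simp
  rw [e4] at hFMN
  refine numeric hη hη1 hθ hC20 (by linarith) ht hNL0 hA0 hFMN hGF ?_
  refine hsplit.trans ?_
  rw [← mul_sum, ← mul_sum]
  have h1 : (1 - η) * (1 / 2) * (1 + θ) ^ 2 * NL * ∑ a ∈ Icc 1 A, F a ≤ (1 - η) * (1 / 2) * (1 + θ) ^ 2 * NL * ((1 + θ) * A) := by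
    have hη2 : 0 ≤ 1 - η := by linarith
    gcongr
  linarith

open Classical in
/-- the range `N^(9/10) ≤ A ≤ N` -/
theorem big (η : ℝ) (hη : 0 < η) (hη1 : η ≤ 1 / 2) :
    ∃ N0 : ℕ, ∀ N : ℕ, N0 ≤ N → ∀ A : ℕ, (N : ℝ) ^ (9 / 10 : ℝ) ≤ A → A ≤ N →
      1 / 2 * (A : ℝ) ≤ (#((Icc 1 A).filter (fun a => GoodA η N a)) : ℝ) := by
  obtain ⟨θ, hθ⟩ : ∃ θ : ℝ, θ = η / 16 := ⟨_, rfl⟩
  have hθ0 : 0 < θ := by rw [hθ]; positivity
  obtain ⟨N1, h7⟩ := t7s 1 one_pos 0 (1 / 15) (by norm_num) θ hθ0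
  obtain ⟨N2, hli⟩ := li_asym 1 one_pos 0 θ hθ0
  obtain ⟨M1, hM1⟩ := eventually_atTop.1 (li_upper2 θ hθ0)
  refine ⟨N1 + N2 + M1 + 10, fun N hN A hA1 hA2 => ?_⟩
  obtain ⟨Ex, hE1, hE2, hE3⟩ := h7 N (by omega) A (by
    refine le_trans (le_of_eq ?_) hA1
    norm_num) hA2
  have g1 := hM1 N (by omega) 2 N le_rfl (by omega) le_rfl
  obtain ⟨L, hL⟩ : ∃ L : ℝ, L = Real.log N := ⟨_, rfl⟩
  have hNR : (10 : ℝ) ≤ N := by exact_mod_cast (by omega : 10 ≤ N)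
  have hN0 : (0 : ℝ) < N := by linarith
  have hL0 : 0 < L := by rw [hL]; exact Real.log_pos (by linarith)
  obtain ⟨NL, hNL⟩ : ∃ NL : ℝ, NL = (N : ℝ) / L := ⟨_, rfl⟩
  have hNL0 : 0 < NL := by rw [hNL]; positivity
  have hI : ∫ t in (2 : ℝ)..(N : ℝ), 1 / Real.log t ≤ (1 + θ) * NL := by
    have h1 : (((2 : ℕ) : ℝ)) = 2 := by norm_num
    rw [h1, ← hL] at g1
    refine g1.trans ?_
    have h2 : ((N : ℝ) - 2) / L ≤ N / L := div_le_div_of_nonneg_right (by linarith) hL0.le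
    rw [hNL]
    linarith
  have hI0 := int_nonneg (show 2 ≤ N by omega)
  have hsub : Icc 1 A \ Ex ⊆ (Icc 1 A).filter (fun a => GoodA η N a) := by
    intro a ha
    rw [Finset.mem_sdiff] at ha
    rw [mem_filter]
    refine ⟨ha.1, ?_⟩
    have haI := mem_Icc.1 ha.1
    obtain ⟨S, hS0, hSt, hb⟩ := hE3 a ha.1 ha.2 (adm_one a haI.1)
    have hSt' : Tendsto (fun X : ℕ => hprod a X) atTop (𝓝 S) := by
      refine hSt.congr fun X => ?_
      exact partialC_one a X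
    refine ⟨S, hS0, hSt', ?_⟩
    have k1 := hb 0 N (by omega) le_rfl
    have k2 := (abs_le.1 (hli N (by omega) a (mem_Icc.2 ⟨haI.1, haI.2.trans hA2⟩) 0 N (by omega) le_rfl)).1
    have hP : (#((Ioc 0 N).filter (fun m : ℕ => (fv 1 0 (a : ℕ) m).toNat.Prime)) : ℝ) = P a N := by
      unfold P
      congr 1
      apply congrArg
      have hset : Ioc 0 N = Icc 1 N := by
        ext n
        rw [mem_Ioc, mem_Icc]
        omega
      rw [hset]
      apply filter_congr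
      intro m _
      have e1 : (fv 1 0 ((a : ℕ) : ℤ) m).toNat = ((m : ℤ) ^ 2 + (a : ℕ)).natAbs := by
        unfold fv
        have : (0 : ℤ) ≤ (m : ℤ) ^ 2 + (a : ℕ) := by positivity
        have e2 : 1 * (m : ℤ) ^ 2 + 0 * m + (a : ℕ) = (m : ℤ) ^ 2 + (a : ℕ) := by ring
        rw [e2]
        omega
      rw [e1]
    rw [hP, eps_one, gcdProd_one, one_mul, mul_one] at k1
    obtain ⟨Sg, hSg⟩ : ∃ Sg : ℝ, Sg = ∑ m ∈ Ioc 0 N, 1 / Real.log (((1 : ℤ) : ℝ) * m ^ 2 + ((0 : ℤ) : ℝ) * m + ((a : ℕ) : ℝ)) :=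
      ⟨_, rfl⟩
    have k2' : -(θ * (N / Real.log N)) ≤ Sg - ((N : ℝ) - 0) / (2 * Real.log N) := by
      rw [hSg]
      exact_mod_cast k2
    have k1' : |(P a N : ℝ) - S * Sg| ≤ θ * (S * N / Real.log N) := by
      rw [hSg]
      exact_mod_cast k1
    have k3 := (abs_le.1 k1').1
    rw [← hL] at k2' k3
    have e1 : ((N : ℝ) - 0) / (2 * L) = NL / 2 := by rw [hNL]; field_simp; ring
    have e2 : S * N / L = S * NL := by rw [hNL]; ring
    rw [e1, ← hNL] at k2'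
    rw [e2] at k3
    have m1 : S * (NL / 2 - θ * NL) ≤ S * Sg := mul_le_mul_of_nonneg_left (by linarith) hS0.le
    have m2 : (1 - η) * (1 / 2 * S * ∫ t in (2 : ℝ)..(N : ℝ), 1 / Real.log t) ≤ (1 - η) * (1 / 2 * S * ((1 + θ) * NL)) := by
      have hη2 : 0 ≤ 1 - η := by linarith
      gcongr
    refine m2.trans ?_
    have m3 : 0 < S * NL := by positivity
    have m4 : (1 - η) * (1 / 2 * S * ((1 + θ) * NL)) ≤ S * NL * (1 / 2 - 2 * θ) := by
      have : (1 - η) * (1 + θ) / 2 ≤ 1 / 2 - 2 * θ := by rw [hθ]; nlinarith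
      calc (1 - η) * (1 / 2 * S * ((1 + θ) * NL)) = S * NL * ((1 - η) * (1 + θ) / 2) := by ring
        _ ≤ _ := mul_le_mul_of_nonneg_left this m3.le
    nlinarith
  have h1 : (#(Icc 1 A \ Ex) : ℝ) ≤ (#((Icc 1 A).filter (fun a => GoodA η N a)) : ℝ) := by
    exact_mod_cast card_le_card hsub
  have h2 : (#(Icc 1 A \ Ex) : ℝ) = A - #Ex := by
    rw [card_sdiff_of_subset hE1, Nat.card_Icc, Nat.add_sub_cancel, Nat.cast_sub]
    have := card_le_card hE1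
    rwa [Nat.card_Icc, Nat.add_sub_cancel] at this
  have h3 : θ * A ≤ 1 / 32 * (A : ℝ) := by
    apply mul_le_mul_of_nonneg_right _ (Nat.cast_nonneg _)
    rw [hθ]
    linarith
  have h4 : (0 : ℝ) ≤ A := Nat.cast_nonneg _
  linarith

open Classical in
/-- **Theorem.** -/
theorem main (hFM : S_FM) (hUP : S_UP) (hSQ : S_SQ) (hAV : S_AV) (η : ℝ) (hη : 0 < η) :
    ∃ c : ℝ, 0 < c ∧ ∀ ε : ℝ, 0 < ε → ∃ N0 : ℕ, ∀ N : ℕ, N0 ≤ N → ∀ A : ℕ, (N : ℝ) ^ (1 / 2 + ε) ≤ A → A ≤ N →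
      c * A ≤ (#((Icc 1 A).filter (fun a => GoodA η N a)) : ℝ) := by
  obtain ⟨c, hc, h1⟩ := mid hFM hUP hSQ hAV (min η (1 / 2)) (lt_min hη (by norm_num)) (min_le_right _ _)
  obtain ⟨N2, h2⟩ := big (min η (1 / 2)) (lt_min hη (by norm_num)) (min_le_right _ _)
  refine ⟨min c (1 / 2), lt_min hc (by norm_num), fun ε hε => ?_⟩
  obtain ⟨N1, h1⟩ := h1 ε hε
  refine ⟨N1 + N2 + 10, fun N hN A hA1 hA2 => ?_⟩
  have hmono : (#((Icc 1 A).filter (fun a => GoodA (min η (1 / 2)) N a)) : ℝ) ≤ (#((Icc 1 A).filter (fun a => GoodA η N a)) : ℝ) := by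
    have : #((Icc 1 A).filter (fun a => GoodA (min η (1 / 2)) N a)) ≤ #((Icc 1 A).filter (fun a => GoodA η N a)) := by
      apply card_le_card
      intro a ha
      rw [mem_filter] at ha ⊢
      exact ⟨ha.1, ha.2.mono (by omega) (min_le_left _ _)⟩
    exact_mod_cast this
  have hA0 : (0 : ℝ) ≤ A := Nat.cast_nonneg _
  rcases le_total (A : ℝ) ((N : ℝ) ^ (9 / 10 : ℝ)) with h | h
  · refine le_trans ?_ ((h1 N (by omega) A hA1 h).trans hmono)
    exact mul_le_mul_of_nonneg_right (min_le_left _ _) hA0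
  · refine le_trans ?_ ((h2 N (by omega) A h hA2).trans hmono)
    exact mul_le_mul_of_nonneg_right (min_le_right _ _) hA0

end Run7.h757.BP.Fin
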