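import Mathlib
import Pool.Agent.Run7.h757.BP.Stm

set_option autoImplicit false

/-!
# Project BP: Vaughan's identity with bounds in the supremum norm (adapted from `Pool/Agent/H373R2/T7/Vau.lean`)
-/

namespace Run7.h757.BP.Vau

open Finset
open Pool.Agent.Helper112 (betaV LamII)
open Pool.Agent.Helper112.TI (mu1 l1 mu1_apply l1_apply)
open Pool.Agent.Helper112.TII (betaV_abs betaV_zero)
open Pool.Agent.H373R2.T3 (dyadic_sum hyp abel_Ioc vaughan_sum conv_abs_le conv_zero)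
open Pool.Agent.H373R2.T7 (bil_gen)

lemma scaled (E : ℕ → ℂ) (N N' M L : ℕ) (hM : 1 ≤ M) (hL : 1 ≤ L) (R : ℝ)
    (h : ∀ a b : ℕ → ℂ, (∀ m, ‖a m‖ ≤ 1) → (∀ l, ‖b l‖ ≤ 1) →
      ‖∑ m ∈ Ioc M (2 * M), ∑ l ∈ Ioc L (2 * L), a m * b l * (if N < m * l ∧ m * l ≤ N' then E (m * l) else 0)‖ ≤ R)
    (a b : ℕ → ℂ) (A B : ℝ) (hA : 0 < A) (hB : 0 < B) (ha : ∀ m, 1 ≤ m → m ≤ N' → ‖a m‖ ≤ A)
    (hb : ∀ l, 1 ≤ l → l ≤ N' → ‖b l‖ ≤ B) :
    ‖∑ m ∈ Ioc M (2 * M), ∑ l ∈ Ioc L (2 * L), a m * b l * (if N < m * l ∧ m * l ≤ N' then E (m * l) else 0)‖ ≤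
      A * B * R := by
  have h1 := h (fun m => if 1 ≤ m ∧ m ≤ N' then a m / (A : ℂ) else 0) (fun l => if 1 ≤ l ∧ l ≤ N' then b l / (B : ℂ) else 0)
    (by
      intro m
      split_ifs with hm
      · rw [norm_div, Complex.norm_real, Real.norm_of_nonneg hA.le, div_le_one hA]
        exact ha m hm.1 hm.2
      · simp)
    (by
      intro m
      split_ifs with hm
      · rw [norm_div, Complex.norm_real, Real.norm_of_nonneg hB.le, div_le_one hB]
        exact hb m hm.1 hm.2
      · simp)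
  have hAc : (A : ℂ) ≠ 0 := by exact_mod_cast hA.ne'
  have hBc : (B : ℂ) ≠ 0 := by exact_mod_cast hB.ne'
  have h2 : ∑ m ∈ Ioc M (2 * M), ∑ l ∈ Ioc L (2 * L), a m * b l * (if N < m * l ∧ m * l ≤ N' then E (m * l) else 0) =
      ((A * B : ℝ) : ℂ) * ∑ m ∈ Ioc M (2 * M), ∑ l ∈ Ioc L (2 * L), (if 1 ≤ m ∧ m ≤ N' then a m / (A : ℂ) else 0) *
        (if 1 ≤ l ∧ l ≤ N' then b l / (B : ℂ) else 0) * (if N < m * l ∧ m * l ≤ N' then E (m * l) else 0) := by
    rw [mul_sum]
    refine sum_congr rfl fun m hm => ?_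
    rw [mul_sum]
    refine sum_congr rfl fun l hl => ?_
    rw [mem_Ioc] at hm hl
    by_cases hc : N < m * l ∧ m * l ≤ N'
    · have hm1 : m ≤ m * l := Nat.le_mul_of_pos_right _ (by omega)
      have hl1 : l ≤ m * l := Nat.le_mul_of_pos_left _ (by omega)
      rw [if_pos hc, if_pos ⟨by omega, by omega⟩, if_pos ⟨by omega, by omega⟩]
      push_cast
      field_simp
    · rw [if_neg hc]
      simp
  rw [h2, norm_mul, Complex.norm_real, Real.norm_of_nonneg (by positivity)]
  exact mul_le_mul_of_nonneg_left h1 (by positivity)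

theorem vau : S_VAU := by
  intro E N N' U hN hNN' hN' hU hU3 Y T R hR0 hY0 hT1 hT hI hII
  have hN0 : (1 : ℝ) ≤ N := by exact_mod_cast hN
  set Lg : ℝ := 1 + Real.log (4 * N) with hLg
  have hlog4N : 0 ≤ Real.log (4 * (N : ℝ)) := Real.log_nonneg (by linarith)
  have hLg1 : 1 ≤ Lg := by linarith
  have hLg0 : 0 < Lg := by linarith
  have hT0 : 0 < T := by linarith
  have hlogle : ∀ t : ℝ, 1 ≤ t → t ≤ 4 * N → Real.log t ≤ Lg := by
    intro t ht ht2
    have := Real.log_le_log (by linarith) ht2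
    linarith
  have hUUU : U ≤ U * U := Nat.le_mul_of_pos_left _ (by omega)
  have hUU : U * U * U ≤ N := by
    have : U ^ 3 = U * U * U := by ring
    omega
  have hUUN : U * U ≤ N := (Nat.le_mul_of_pos_right _ (by omega)).trans hUU
  rw [vaughan_sum U U N N' (by omega) E]
  have hlog2 : (Nat.log 2 N' + 1 : ℝ) ≤ 2 * Lg := by
    have hN'1 : 1 ≤ N' := by omega
    have h2 : (Nat.log 2 N' : ℝ) * Real.log 2 ≤ Real.log N' := by
      have h3 : (2 : ℝ) ^ Nat.log 2 N' ≤ N' := by exact_mod_cast Nat.pow_log_le_self 2 (by omega)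
      have h4 := Real.log_le_log (by positivity) h3
      rwa [Real.log_pow] at h4
    have h3 : Real.log N' ≤ Real.log (4 * N) := Real.log_le_log (by exact_mod_cast hN'1) (by exact_mod_cast (by omega : N' ≤ 4 * N))
    have h4 := Real.log_two_gt_d9
    have h5 : (0 : ℝ) ≤ Nat.log 2 N' := Nat.cast_nonneg _
    nlinarith
  have hlog20 : (0 : ℝ) ≤ (Nat.log 2 N' + 1 : ℝ) := by positivity
  have hvm : ∀ l : ℕ, 1 ≤ l → l ≤ N' → ArithmeticFunction.vonMangoldt l ≤ Lg := by
    intro l h1 h2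
    refine ArithmeticFunction.vonMangoldt_le_log.trans (hlogle _ ?_ ?_)
    · exact_mod_cast h1
    · exact_mod_cast (by omega : l ≤ 4 * N)
  -- the II-part with betaV
  have hS1 : ‖∑ m ∈ Icc 1 N', ∑ l ∈ Ioc (N / m) (N' / m), ((betaV U m : ℝ) : ℂ) *
      (((if U < l then ArithmeticFunction.vonMangoldt l else 0 : ℝ)) : ℂ) * E (m * l)‖ ≤
      (Nat.log 2 N' + 1 : ℝ) ^ 2 * (T * Lg * R) := by
    apply bil_gen E N N' U hU (fun m => ((betaV U m : ℝ) : ℂ))
      (fun l => (((if U < l then ArithmeticFunction.vonMangoldt l else 0 : ℝ)) : ℂ)) (T * Lg * R) (by positivity)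
    · intro m hm
      rw [betaV_zero U m hm]; norm_num
    · intro l hl
      rw [if_neg (by omega)]; norm_num
    intro M L hM hL hM2 hL2 hML
    apply scaled E N N' M L hM hL R (fun a b ha hb => hII a b ha hb M L hM hL hM2 hL2 hML) _ _ T Lg hT0 hLg0
    · intro m h1 h2
      rw [Complex.norm_real, Real.norm_eq_abs]
      exact (betaV_abs U m).trans (hT m h1 h2)
    · intro l h1 h2
      rw [Complex.norm_real, Real.norm_eq_abs]
      split_ifs
      · rw [abs_of_nonneg ArithmeticFunction.vonMangoldt_nonneg]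
        exact hvm l h1 h2
      · rw [abs_zero]; linarith
  -- type I with logarithms
  have hS2 : ‖∑ m ∈ Icc 1 N', ((mu1 U m : ℝ) : ℂ) * ∑ l ∈ Ioc (N / m) (N' / m), ((Real.log l : ℝ) : ℂ) * E (m * l)‖ ≤
      2 * Lg * ∑ m ∈ Icc 1 U, Y m := by
    have h2 : ∀ m ∈ Icc 1 N', ‖((mu1 U m : ℝ) : ℂ) * ∑ l ∈ Ioc (N / m) (N' / m), ((Real.log l : ℝ) : ℂ) * E (m * l)‖ ≤
        if m ≤ U then 2 * Lg * Y m else 0 := by
      intro m hm
      rw [mem_Icc] at hm
      split_ifs with hmU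
      · rw [norm_mul, Complex.norm_real, Real.norm_eq_abs]
        have h3 : |mu1 U m| ≤ 1 := by
          rw [mu1_apply, if_pos hmU]
          exact_mod_cast ArithmeticFunction.abs_moebius_le_one
        have h4 : ‖∑ l ∈ Ioc (N / m) (N' / m), ((Real.log l : ℝ) : ℂ) * E (m * l)‖ ≤ 2 * Real.log ((N' / m : ℕ) : ℝ) * Y m := by
          apply abel_Ioc (N / m) (N' / m) (Nat.div_le_div_right hNN') (fun l : ℕ => Real.log l) (fun l => E (m * l))
          · intro a b hab
            simp only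
            rcases Nat.eq_zero_or_pos a with h | h
            · rw [h, Nat.cast_zero, Real.log_zero]; exact Real.log_natCast_nonneg _
            · exact Real.log_le_log (by exact_mod_cast h) (by exact_mod_cast hab)
          · intro n; exact Real.log_natCast_nonneg _
          · intro b' hb'
            exact hI m (mem_Icc.2 ⟨hm.1, hmU⟩) b' hb'
        have h5 : Real.log ((N' / m : ℕ) : ℝ) ≤ Lg := by
          have h6 : 1 ≤ N' / m := Nat.div_pos hm.2 hm.1
          apply hlogle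
          · exact_mod_cast h6
          · have : N' / m ≤ N' := Nat.div_le_self _ _
            exact_mod_cast (by omega : N' / m ≤ 4 * N)
        have hYm := hY0 m
        calc |mu1 U m| * ‖∑ l ∈ Ioc (N / m) (N' / m), ((Real.log l : ℝ) : ℂ) * E (m * l)‖ ≤
              1 * (2 * Real.log ((N' / m : ℕ) : ℝ) * Y m) := mul_le_mul h3 h4 (norm_nonneg _) (by norm_num)
          _ ≤ 1 * (2 * Lg * Y m) := by gcongr
          _ = _ := by ring
      · rw [mu1_apply, if_neg (by omega)]; simp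
    refine (norm_sum_le _ _).trans ((sum_le_sum h2).trans ?_)
    rw [← sum_filter, mul_sum]
    apply sum_le_sum_of_subset_of_nonneg
    · intro m hm; rw [mem_filter, mem_Icc] at hm; rw [mem_Icc]; omega
    · intro m _ _
      have := hY0 m
      positivity
  -- the third sum
  have hbil : ‖∑ m ∈ Icc 1 N', ∑ l ∈ Ioc (N / m) (N' / m), ((if U < m then (mu1 U * l1 U) m else 0 : ℝ) : ℂ) *
      ((if U < l then (1 : ℝ) else 0 : ℝ) : ℂ) * E (m * l)‖ ≤ (Nat.log 2 N' + 1 : ℝ) ^ 2 * (Lg * 1 * R) := by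
    apply bil_gen E N N' U hU (fun m => ((if U < m then (mu1 U * l1 U) m else 0 : ℝ) : ℂ))
      (fun l => ((if U < l then (1 : ℝ) else 0 : ℝ) : ℂ)) (Lg * 1 * R) (by positivity)
    · intro m hm
      rw [if_neg (by omega)]; norm_num
    · intro l hl
      rw [if_neg (by omega)]; norm_num
    intro M L hM hL hM2 hL2 hML
    apply scaled E N N' M L hM hL R (fun a b ha hb => hII a b ha hb M L hM hL hM2 hL2 hML) _ _ Lg 1 hLg0 one_pos
    · intro m h1 h2
      rw [Complex.norm_real, Real.norm_eq_abs]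
      split_ifs
      · exact (conv_abs_le U U m h1).trans (hlogle _ (by exact_mod_cast h1) (by exact_mod_cast (by omega : m ≤ 4 * N)))
      · rw [abs_zero]; linarith
    · intro l h1 h2
      rw [Complex.norm_real, Real.norm_eq_abs]
      split_ifs <;> simp
  have hS3 : ‖∑ m ∈ Icc 1 N', (((mu1 U * l1 U) m : ℝ) : ℂ) * ∑ l ∈ Ioc (N / m) (N' / m), E (m * l)‖ ≤
      (Nat.log 2 N' + 1 : ℝ) ^ 2 * (Lg * 1 * R) + Lg * ∑ m ∈ Icc 1 U, Y m := by
    have hsplit : ∑ m ∈ Icc 1 N', (((mu1 U * l1 U) m : ℝ) : ℂ) * ∑ l ∈ Ioc (N / m) (N' / m), E (m * l) =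
        ∑ m ∈ Icc 1 N', ∑ l ∈ Ioc (N / m) (N' / m), ((if U < m then (mu1 U * l1 U) m else 0 : ℝ) : ℂ) *
          ((if U < l then (1 : ℝ) else 0 : ℝ) : ℂ) * E (m * l) +
        ∑ m ∈ Icc 1 N', (if m ≤ U then (((mu1 U * l1 U) m : ℝ) : ℂ) * ∑ l ∈ Ioc (N / m) (N' / m), E (m * l) else 0) := by
      rw [← sum_add_distrib]
      refine sum_congr rfl fun m hm => ?_
      rw [mem_Icc] at hm
      by_cases hmU : m ≤ U
      · rw [if_pos hmU]
        have h0 : ∑ l ∈ Ioc (N / m) (N' / m), ((if U < m then (mu1 U * l1 U) m else 0 : ℝ) : ℂ) *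
          ((if U < l then (1 : ℝ) else 0 : ℝ) : ℂ) * E (m * l) = 0 := by
          refine sum_eq_zero fun l _ => ?_
          rw [if_neg (by omega)]
          simp
        rw [h0, zero_add]
      · rw [if_neg hmU, add_zero, mul_sum]
        refine sum_congr rfl fun l hl => ?_
        rw [if_pos (by omega)]
        by_cases hm2 : U * U < m
        · rw [conv_zero U U m hm2]
          simp
        · rw [mem_Ioc, Nat.div_lt_iff_lt_mul (by omega)] at hl
          have hl1 : U < l := by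
            by_contra hcon
            have h1 : l * m ≤ U * (U * U) := Nat.mul_le_mul (by omega) (by omega)
            have h2 : U * (U * U) = U * U * U := by ring
            omega
          rw [if_pos hl1]
          push_cast
          ring
    rw [hsplit]
    refine (norm_add_le _ _).trans (add_le_add hbil ?_)
    have h2 : ∀ m ∈ Icc 1 N', ‖(if m ≤ U then (((mu1 U * l1 U) m : ℝ) : ℂ) * ∑ l ∈ Ioc (N / m) (N' / m), E (m * l) else 0)‖ ≤
        if m ≤ U then Lg * Y m else 0 := by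
      intro m hm
      rw [mem_Icc] at hm
      split_ifs with hmU
      · rw [norm_mul, Complex.norm_real, Real.norm_eq_abs]
        have h3 : |(mu1 U * l1 U) m| ≤ Lg := (conv_abs_le U U m hm.1).trans (hlogle _ (by exact_mod_cast hm.1) (by
            exact_mod_cast (by omega : m ≤ 4 * N)))
        exact mul_le_mul h3 (hI m (mem_Icc.2 ⟨hm.1, hmU⟩) _ le_rfl) (norm_nonneg _) (by linarith)
      · simp
    refine (norm_sum_le _ _).trans ((sum_le_sum h2).trans ?_)
    rw [← sum_filter, mul_sum]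
    apply sum_le_sum_of_subset_of_nonneg
    · intro m hm; rw [mem_filter, mem_Icc] at hm; rw [mem_Icc]; omega
    · intro m _ _
      have := hY0 m
      positivity
  refine (norm_sub_le _ _).trans ?_
  refine (add_le_add (norm_add_le _ _) le_rfl).trans ?_
  have h7 : (Nat.log 2 N' + 1 : ℝ) ^ 2 ≤ 4 * Lg ^ 2 := by
    calc (Nat.log 2 N' + 1 : ℝ) ^ 2 ≤ (2 * Lg) ^ 2 := pow_le_pow_left₀ hlog20 hlog2 2
      _ = _ := by ring
  have h8 : (Nat.log 2 N' + 1 : ℝ) ^ 2 * (T * Lg * R) ≤ 4 * Lg ^ 2 * (T * Lg * R) :=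
    mul_le_mul_of_nonneg_right h7 (by positivity)
  have h9 : (Nat.log 2 N' + 1 : ℝ) ^ 2 * (Lg * 1 * R) ≤ 4 * Lg ^ 2 * (T * Lg * R) := by
    refine (mul_le_mul_of_nonneg_right h7 (by positivity)).trans ?_
    have h10 : Lg * 1 * R ≤ T * Lg * R := by
      have : 0 ≤ Lg * R := by positivity
      nlinarith
    exact mul_le_mul_of_nonneg_left h10 (by positivity)
  have h11 : 8 * Lg ^ 3 * T * R ≤ 20 * Lg ^ 4 * T * R := by
    have h12 : Lg ^ 3 ≤ Lg ^ 4 := pow_le_pow_right₀ hLg1 (by norm_num)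
    have h13 : 8 * Lg ^ 3 ≤ 20 * Lg ^ 4 := by
      have : 0 ≤ Lg ^ 4 := by positivity
      linarith
    have h14 : 0 ≤ T * R := by positivity
    nlinarith
  have h15 : 4 * Lg ^ 2 * (T * Lg * R) = 4 * Lg ^ 3 * T * R := by ring
  rw [h15] at h8 h9
  linarith

end Run7.h757.BP.Vau
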