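import Mathlib
import Pool.Agent.Run7.h757.BP.Stm

set_option autoImplicit false

/-!
# Project BP: the spacing of the numbers `h √k`
-/

namespace Run7.h757.BP.Spc

open Finset

/-- elements of one residue class in an interval -/
lemma card_cong (A L m : ℕ) (hm : 1 ≤ m) (S : Finset ℕ) (hS : S ⊆ Ico A (A + L))
    (hc : ∀ x ∈ S, ∀ y ∈ S, x ≡ y [MOD m]) : #S ≤ L / m + 1 := by
  have h : #S ≤ #(range (L / m + 1)) := by
    apply card_le_card_of_injOn (fun x => (x - A) / m)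
    · intro x hx
      have h1 := mem_Ico.1 (hS hx)
      simp only [coe_range, Set.mem_Iio]
      have h2 : (x - A) / m ≤ L / m := Nat.div_le_div_right (by omega)
      omega
    · intro x hx y hy hxy
      simp only at hxy
      have h1 := mem_Ico.1 (hS hx)
      have h2 := mem_Ico.1 (hS hy)
      have h3 := hc x hx y hy
      have h4 : x - A ≡ y - A [MOD m] := by
        have h5 : (x - A) + A ≡ (y - A) + A [MOD m] := by
          rw [Nat.sub_add_cancel h1.1, Nat.sub_add_cancel h2.1]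
          exact h3
        exact Nat.ModEq.add_right_cancel' A h5
      have h5 : (x - A) % m = (y - A) % m := h4
      have h6 := Nat.div_add_mod (x - A) m
      have h7 := Nat.div_add_mod (y - A) m
      rw [hxy, h5] at h6
      omega
  rwa [card_range] at h

lemma card_cong_real (A L m : ℕ) (hm : 1 ≤ m) (S : Finset ℕ) (hS : S ⊆ Ico A (A + L))
    (hc : ∀ x ∈ S, ∀ y ∈ S, x ≡ y [MOD m]) : (#S : ℝ) ≤ (L : ℝ) / m + 1 := by
  have h := card_cong A L m hm S hS hc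
  have h1 : ((L / m : ℕ) : ℝ) ≤ (L : ℝ) / m := Nat.cast_div_le
  have h2 : (#S : ℝ) ≤ ((L / m : ℕ) : ℝ) + 1 := by exact_mod_cast h
  linarith

/-- the pairs `(k, k')` for given `h`, `h'` -/
lemma pairs (H K h h' : ℕ) (D : ℝ) (hH : 1 ≤ H) (hD : 0 ≤ D) (hh : H ≤ h) (hh' : H ≤ h') :
    (#((Ioc K (2 * K) ×ˢ Ioc K (2 * K)).filter (fun q : ℕ × ℕ =>
      |(h : ℝ) ^ 2 * q.1 - (h' : ℝ) ^ 2 * q.2| ≤ D)) : ℝ) ≤
      (2 * (D / (Nat.gcd h h' : ℝ) ^ 2) + 1) * (K * (Nat.gcd h h' : ℝ) ^ 2 / H ^ 2 + 1) := by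
  classical
  obtain ⟨g, hg⟩ : ∃ g : ℕ, g = Nat.gcd h h' := ⟨_, rfl⟩
  have hg0 : 0 < g := by rw [hg]; exact Nat.gcd_pos_of_pos_left _ (by omega)
  obtain ⟨a, ha⟩ : g ∣ h := by rw [hg]; exact Nat.gcd_dvd_left _ _
  obtain ⟨b, hb⟩ : g ∣ h' := by rw [hg]; exact Nat.gcd_dvd_right _ _
  have hab : Nat.Coprime a b := by
    have h1 := Nat.coprime_div_gcd_div_gcd (m := h) (n := h') (by rw [← hg]; exact hg0)
    rw [← hg, ha, hb, Nat.mul_div_cancel_left _ hg0, Nat.mul_div_cancel_left _ hg0] at h1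
    exact h1
  have hb0 : 0 < b := Nat.pos_of_ne_zero (by rintro rfl; omega)
  rw [← hg]
  have hgR : (0 : ℝ) < g := by exact_mod_cast hg0
  have hbR : (0 : ℝ) < b := by exact_mod_cast hb0
  have hHR : (0 : ℝ) < H := by exact_mod_cast hH
  obtain ⟨D', hD'⟩ : ∃ D' : ℝ, D' = D / (g : ℝ) ^ 2 := ⟨_, rfl⟩
  have hD'0 : 0 ≤ D' := by rw [hD']; positivity
  obtain ⟨n, hn⟩ : ∃ n : ℤ, n = ⌊D'⌋ := ⟨_, rfl⟩
  have hn0 : 0 ≤ n := by rw [hn]; exact Int.floor_nonneg.2 hD'0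
  obtain ⟨T, hT⟩ : ∃ T : ℤ → Finset ℕ, T = fun d => (Ioc K (2 * K)).filter (fun k : ℕ =>
    ((b : ℤ) ^ 2) ∣ (a : ℤ) ^ 2 * k - d) := ⟨_, rfl⟩
  have hTc : ∀ d, (#(T d) : ℝ) ≤ (K : ℝ) / ((b ^ 2 : ℕ) : ℝ) + 1 := by
    intro d
    apply card_cong_real (K + 1) K (b ^ 2) (Nat.pos_of_ne_zero (by positivity))
    · intro k hk
      rw [hT, mem_filter, mem_Ioc] at hk
      rw [mem_Ico]
      omega
    · intro x hx y hy
      rw [hT, mem_filter] at hx hy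
      have h1 := dvd_sub hx.2 hy.2
      have h2 : (a : ℤ) ^ 2 * x - d - ((a : ℤ) ^ 2 * y - d) = (a : ℤ) ^ 2 * ((x : ℤ) - y) := by ring
      rw [h2] at h1
      have h3 : IsCoprime ((b : ℤ) ^ 2) ((a : ℤ) ^ 2) := by
        apply IsCoprime.pow
        exact Nat.isCoprime_iff_coprime.2 hab.symm
      have h4 := h3.dvd_of_dvd_mul_left h1
      rw [← Int.natCast_modEq_iff]
      have h5 : (((b ^ 2 : ℕ) : ℕ) : ℤ) ∣ (y : ℤ) - x := by
        push_cast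
        rw [← neg_sub]
        exact (dvd_neg).2 h4
      exact (Int.modEq_iff_dvd).2 h5
  have hle : #((Ioc K (2 * K) ×ˢ Ioc K (2 * K)).filter (fun q : ℕ × ℕ =>
      |(h : ℝ) ^ 2 * q.1 - (h' : ℝ) ^ 2 * q.2| ≤ D)) ≤ #((Icc (-n) n).sigma T) := by
    apply card_le_card_of_injOn (fun q => (⟨(a : ℤ) ^ 2 * q.1 - (b : ℤ) ^ 2 * q.2, q.1⟩ : (_ : ℤ) × ℕ))
    · intro q hq
      rw [mem_coe, mem_filter, mem_product] at hq
      obtain ⟨⟨h1, h2⟩, h3⟩ := hq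
      rw [mem_coe, mem_sigma]
      have h4 : |(((a : ℤ) ^ 2 * q.1 - (b : ℤ) ^ 2 * q.2 : ℤ) : ℝ)| ≤ D' := by
        rw [hD', le_div_iff₀ (by positivity)]
        refine le_trans (le_of_eq ?_) h3
        rw [ha, hb]
        push_cast
        rw [show ((g : ℝ) * a) ^ 2 * q.1 - ((g : ℝ) * b) ^ 2 * q.2 = ((a : ℝ) ^ 2 * q.1 - (b : ℝ) ^ 2 * q.2) * (g : ℝ) ^ 2 by ring,
          abs_mul, abs_of_nonneg (by positivity : (0 : ℝ) ≤ (g : ℝ) ^ 2)]
      rw [abs_le] at h4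
      refine ⟨?_, ?_⟩
      · rw [mem_Icc]
        constructor
        · have h5 : -((a : ℤ) ^ 2 * q.1 - (b : ℤ) ^ 2 * q.2) ≤ n := by
            rw [hn]
            apply Int.le_floor.2
            push_cast
            have := h4.1
            push_cast at this
            linarith
          dsimp only
          linarith
        · rw [hn]
          apply Int.le_floor.2
          exact h4.2
      · rw [hT, mem_filter]
        refine ⟨h1, ?_⟩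
        dsimp only
        have : (a : ℤ) ^ 2 * q.1 - ((a : ℤ) ^ 2 * q.1 - (b : ℤ) ^ 2 * q.2) = (b : ℤ) ^ 2 * q.2 := by ring
        rw [this]
        exact dvd_mul_right _ _
    · intro q hq q' hq' hqq
      rw [Sigma.mk.injEq] at hqq
      obtain ⟨h1, h2⟩ := hqq
      have h2' : q.1 = q'.1 := eq_of_heq h2
      rw [h2'] at h1
      have h3 : (b : ℤ) ^ 2 * q.2 = (b : ℤ) ^ 2 * q'.2 := by linarith
      have h4 : (q.2 : ℤ) = q'.2 := by
        have hb2 : ((b : ℤ) ^ 2) ≠ 0 := by positivity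
        exact mul_left_cancel₀ hb2 h3
      exact Prod.ext h2' (by exact_mod_cast h4)
  have hle2 : (#((Ioc K (2 * K) ×ˢ Ioc K (2 * K)).filter (fun q : ℕ × ℕ =>
      |(h : ℝ) ^ 2 * q.1 - (h' : ℝ) ^ 2 * q.2| ≤ D)) : ℝ) ≤ (#((Icc (-n) n).sigma T) : ℝ) := by exact_mod_cast hle
  refine hle2.trans ?_
  rw [card_sigma]
  push_cast
  have h1 : ∑ d ∈ Icc (-n) n, (#(T d) : ℝ) ≤ ∑ _d ∈ Icc (-n) n, ((K : ℝ) / ((b ^ 2 : ℕ) : ℝ) + 1) := sum_le_sum fun d _ => hTc d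
  refine h1.trans ?_
  rw [sum_const, nsmul_eq_mul, Int.card_Icc]
  have h2 : (((n + 1 - -n).toNat : ℕ) : ℝ) ≤ 2 * D' + 1 := by
    have h3 : (((n + 1 - -n).toNat : ℕ) : ℤ) = 2 * n + 1 := by
      rw [Int.toNat_of_nonneg (by linarith)]
      ring
    have h4 : (((n + 1 - -n).toNat : ℕ) : ℝ) = 2 * (n : ℝ) + 1 := by exact_mod_cast h3
    rw [h4]
    have h5 : (n : ℝ) ≤ D' := by rw [hn]; exact Int.floor_le _
    linarith
  have h3 : (K : ℝ) / ((b ^ 2 : ℕ) : ℝ) ≤ K * (g : ℝ) ^ 2 / H ^ 2 := by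
    rw [div_le_div_iff₀ (by positivity) (by positivity)]
    push_cast
    have h4 : (H : ℝ) ^ 2 ≤ (g : ℝ) ^ 2 * (b : ℝ) ^ 2 := by
      rw [← mul_pow]
      apply pow_le_pow_left₀ hHR.le
      have : (h' : ℝ) = g * b := by rw [hb]; push_cast; ring
      rw [← this]
      exact_mod_cast hh'
    have hK0 : (0 : ℝ) ≤ K := Nat.cast_nonneg _
    calc (K : ℝ) * (H : ℝ) ^ 2 ≤ K * ((g : ℝ) ^ 2 * (b : ℝ) ^ 2) := mul_le_mul_of_nonneg_left h4 hK0
      _ = _ := by ring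
  rw [← hD']
  apply mul_le_mul h2 (by linarith) (by positivity) (by positivity)

/-- the sum of the squares of the greatest common divisors -/
lemma gcd_sum (H : ℕ) (hH : 1 ≤ H) :
    ∑ h ∈ Ico H (2 * H), ∑ h' ∈ Ico H (2 * H), (Nat.gcd h h' : ℝ) ^ 2 ≤ 18 * (H : ℝ) ^ 3 := by
  classical
  have h1 : ∀ h ∈ Ico H (2 * H), ∀ h' ∈ Ico H (2 * H), (Nat.gcd h h' : ℝ) ^ 2 ≤
      ∑ g ∈ Ico 1 (2 * H), (g : ℝ) ^ 2 * ((if g ∣ h then (1 : ℝ) else 0) * (if g ∣ h' then (1 : ℝ) else 0)) := by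
    intro h hh h' hh'
    rw [mem_Ico] at hh hh'
    have hg : Nat.gcd h h' ∈ Ico 1 (2 * H) := by
      rw [mem_Ico]
      refine ⟨Nat.gcd_pos_of_pos_left _ (by omega), ?_⟩
      exact lt_of_le_of_lt (Nat.gcd_le_left _ (by omega)) hh.2
    have h2 := single_le_sum (f := fun g : ℕ => (g : ℝ) ^ 2 * ((if g ∣ h then (1 : ℝ) else 0) * (if g ∣ h' then (1 : ℝ) else 0)))
      (fun g _ => by positivity) hg
    refine le_trans (le_of_eq ?_) h2
    rw [if_pos (Nat.gcd_dvd_left _ _), if_pos (Nat.gcd_dvd_right _ _)]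
    ring
  have hcnt : ∀ g ∈ Ico 1 (2 * H), ∑ h ∈ Ico H (2 * H), (if g ∣ h then (1 : ℝ) else 0) ≤ 3 * H / g := by
    intro g hg
    rw [mem_Ico] at hg
    have hgR : (0 : ℝ) < g := by exact_mod_cast (by omega : 0 < g)
    rw [← sum_filter, sum_const, nsmul_eq_mul, mul_one]
    have h2 := card_cong_real H H g hg.1 ((Ico H (2 * H)).filter (fun h => g ∣ h)) (by
      intro x hx
      rw [mem_filter, mem_Ico] at hx
      rw [mem_Ico]
      omega) (by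
      intro x hx y hy
      rw [mem_filter] at hx hy
      exact ((Nat.modEq_zero_iff_dvd).2 hx.2).trans ((Nat.modEq_zero_iff_dvd).2 hy.2).symm)
    refine h2.trans ?_
    rw [div_add_one hgR.ne', div_le_div_iff_of_pos_right hgR]
    have : (g : ℝ) ≤ 2 * H := by exact_mod_cast hg.2.le
    linarith
  calc ∑ h ∈ Ico H (2 * H), ∑ h' ∈ Ico H (2 * H), (Nat.gcd h h' : ℝ) ^ 2
      ≤ ∑ h ∈ Ico H (2 * H), ∑ h' ∈ Ico H (2 * H), ∑ g ∈ Ico 1 (2 * H), (g : ℝ) ^ 2 *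
          ((if g ∣ h then (1 : ℝ) else 0) * (if g ∣ h' then (1 : ℝ) else 0)) :=
        sum_le_sum fun h hh => sum_le_sum fun h' hh' => h1 h hh h' hh'
    _ = ∑ g ∈ Ico 1 (2 * H), (g : ℝ) ^ 2 * ((∑ h ∈ Ico H (2 * H), (if g ∣ h then (1 : ℝ) else 0)) *
          (∑ h' ∈ Ico H (2 * H), (if g ∣ h' then (1 : ℝ) else 0))) := by
        refine (sum_congr rfl fun h _ => sum_comm).trans (sum_comm.trans ?_)
        refine sum_congr rfl fun g _ => ?_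
        rw [sum_mul_sum, mul_sum]
        refine sum_congr rfl fun h _ => ?_
        rw [mul_sum]
    _ ≤ ∑ g ∈ Ico 1 (2 * H), (g : ℝ) ^ 2 * ((3 * H / g) * (3 * H / g)) := by
        refine sum_le_sum fun g hg => ?_
        have h2 := hcnt g hg
        have h3 : (0 : ℝ) ≤ ∑ h ∈ Ico H (2 * H), (if g ∣ h then (1 : ℝ) else 0) := sum_nonneg fun _ _ => by positivity
        gcongr
    _ = ∑ g ∈ Ico 1 (2 * H), 9 * (H : ℝ) ^ 2 := by
        refine sum_congr rfl fun g hg => ?_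
        rw [mem_Ico] at hg
        have hgR : (0 : ℝ) < g := by exact_mod_cast (by omega : 0 < g)
        field_simp
        ring
    _ ≤ 18 * (H : ℝ) ^ 3 := by
        rw [sum_const, nsmul_eq_mul, Nat.card_Ico]
        have : ((2 * H - 1 : ℕ) : ℝ) ≤ 2 * H := by exact_mod_cast Nat.sub_le _ _
        calc ((2 * H - 1 : ℕ) : ℝ) * (9 * (H : ℝ) ^ 2) ≤ (2 * H) * (9 * (H : ℝ) ^ 2) := by gcongr
          _ = _ := by ring

theorem spc : S_SPC := by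
  classical
  refine ⟨18, by norm_num, ?_⟩
  intro H K D hH hK hD
  have hHR : (0 : ℝ) < H := by exact_mod_cast hH
  have hKR : (0 : ℝ) < K := by exact_mod_cast hK
  obtain ⟨F, hF⟩ : ∃ F : Finset ((ℕ × ℕ) × (ℕ × ℕ)), F = ((Ico H (2 * H) ×ˢ Ioc K (2 * K)) ×ˢ (Ico H (2 * H) ×ˢ Ioc K (2 * K))).filter
    (fun v : (ℕ × ℕ) × (ℕ × ℕ) => |(v.1.1 : ℝ) ^ 2 * v.1.2 - (v.2.1 : ℝ) ^ 2 * v.2.2| ≤ D) := ⟨_, rfl⟩
  rw [← hF]
  have h1 : #F = ∑ p ∈ Ico H (2 * H) ×ˢ Ico H (2 * H), #(F.filter (fun v => (v.1.1, v.2.1) = p)) := by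
    apply card_eq_sum_card_fiberwise
    intro v hv
    rw [mem_coe, hF, mem_filter, mem_product, mem_product, mem_product] at hv
    rw [mem_coe, mem_product]
    exact ⟨hv.1.1.1, hv.1.2.1⟩
  have h2 : (#F : ℝ) = ∑ p ∈ Ico H (2 * H) ×ˢ Ico H (2 * H), (#(F.filter (fun v => (v.1.1, v.2.1) = p)) : ℝ) := by
    rw [h1]
    push_cast
    rfl
  rw [h2]
  have h3 : ∀ p ∈ Ico H (2 * H) ×ˢ Ico H (2 * H), (#(F.filter (fun v => (v.1.1, v.2.1) = p)) : ℝ) ≤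
      2 * D * K / H ^ 2 + 2 * D + K * (Nat.gcd p.1 p.2 : ℝ) ^ 2 / H ^ 2 + 1 := by
    rintro ⟨h, h'⟩ hp
    rw [mem_product, mem_Ico, mem_Ico] at hp
    obtain ⟨hh, hh'⟩ := hp
    dsimp only at hh hh' ⊢
    have h4 : #(F.filter (fun v => (v.1.1, v.2.1) = (h, h'))) ≤ #((Ioc K (2 * K) ×ˢ Ioc K (2 * K)).filter (fun q : ℕ × ℕ =>
      |(h : ℝ) ^ 2 * q.1 - (h' : ℝ) ^ 2 * q.2| ≤ D)) := by
      apply card_le_card_of_injOn (fun v => (v.1.2, v.2.2))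
      · intro v hv
        rw [mem_coe, mem_filter, hF, mem_filter, mem_product, mem_product, mem_product, Prod.mk.injEq] at hv
        obtain ⟨⟨⟨⟨v1, v2⟩, v3, v4⟩, v5⟩, v6, v7⟩ := hv
        rw [mem_coe, mem_filter, mem_product]
        rw [v6, v7] at v5
        exact ⟨⟨v2, v4⟩, v5⟩
      · intro v hv v' hv' hvv
        rw [mem_coe, mem_filter, Prod.mk.injEq] at hv hv'
        rw [Prod.mk.injEq] at hvv
        exact Prod.ext (Prod.ext (hv.2.1.trans hv'.2.1.symm) hvv.1) (Prod.ext (hv.2.2.trans hv'.2.2.symm) hvv.2)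
    have h5 := pairs H K h h' D hH hD hh.1 hh'.1
    have h6 : (#(F.filter (fun v => (v.1.1, v.2.1) = (h, h'))) : ℝ) ≤ (#((Ioc K (2 * K) ×ˢ Ioc K (2 * K)).filter (fun q : ℕ × ℕ =>
      |(h : ℝ) ^ 2 * q.1 - (h' : ℝ) ^ 2 * q.2| ≤ D)) : ℝ) := by exact_mod_cast h4
    refine h6.trans (h5.trans ?_)
    have hg1 : (1 : ℝ) ≤ (Nat.gcd h h' : ℝ) := by exact_mod_cast Nat.gcd_pos_of_pos_left _ (by omega)
    obtain ⟨g, hg⟩ : ∃ g : ℝ, g = (Nat.gcd h h' : ℝ) := ⟨_, rfl⟩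
    rw [← hg] at hg1 ⊢
    have hg0 : 0 < g := by linarith
    have e1 : (2 * (D / g ^ 2) + 1) * (K * g ^ 2 / H ^ 2 + 1) =
        2 * D * K / H ^ 2 + 2 * (D / g ^ 2) + K * g ^ 2 / H ^ 2 + 1 := by field_simp; ring
    rw [e1]
    have e2 : D / g ^ 2 ≤ D := div_le_self hD (one_le_pow₀ hg1)
    linarith
  refine (sum_le_sum h3).trans ?_
  rw [sum_add_distrib, sum_add_distrib, sum_add_distrib, sum_const, sum_const, sum_const, sum_product]
  have hcard : ((#(Ico H (2 * H) ×ˢ Ico H (2 * H)) : ℕ) : ℝ) = (H : ℝ) ^ 2 := by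
    rw [card_product, Nat.card_Ico]
    have : 2 * H - H = H := by omega
    rw [this]
    push_cast
    ring
  have hgs := gcd_sum H hH
  have h7 : ∑ x ∈ Ico H (2 * H), ∑ y ∈ Ico H (2 * H), (K : ℝ) * (Nat.gcd x y : ℝ) ^ 2 / (H : ℝ) ^ 2 =
      K / (H : ℝ) ^ 2 * ∑ x ∈ Ico H (2 * H), ∑ y ∈ Ico H (2 * H), (Nat.gcd x y : ℝ) ^ 2 := by
    rw [mul_sum]
    refine sum_congr rfl fun x _ => ?_
    rw [mul_sum]
    refine sum_congr rfl fun y _ => ?_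
    ring
  dsimp only
  rw [h7, nsmul_eq_mul, nsmul_eq_mul, nsmul_eq_mul, hcard]
  have h8 : (K : ℝ) / (H : ℝ) ^ 2 * ∑ x ∈ Ico H (2 * H), ∑ y ∈ Ico H (2 * H), (Nat.gcd x y : ℝ) ^ 2 ≤
      K / (H : ℝ) ^ 2 * (18 * (H : ℝ) ^ 3) := mul_le_mul_of_nonneg_left hgs (by positivity)
  have h9 : (K : ℝ) / (H : ℝ) ^ 2 * (18 * (H : ℝ) ^ 3) = 18 * (H * K) := by field_simp
  have h10 : (H : ℝ) ^ 2 * (2 * D * K / (H : ℝ) ^ 2) = 2 * (D * K) := by field_simp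
  rw [h10]
  have h11 : 0 ≤ D * K := by positivity
  have h12 : 0 ≤ D * (H : ℝ) ^ 2 := by positivity
  have h13 : 0 ≤ (H : ℝ) ^ 2 := by positivity
  nlinarith

end Run7.h757.BP.Spc
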