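import Mathlib
import Pool.Agent.Run7.h757.BP.Stm

set_option autoImplicit false

/-!
# Project BP: the second derivative test for `h √(k l)`
-/

namespace Run7.h757.BP.Ti

open Finset
open Pool.Agent.H469R2.NK (e norm_e norm_sum_neg)
open Pool.Agent.Q83.WG (dd vdc2)

/-- the second difference of `√(k y)` -/
lemma second {k y : ℝ} (hk : 0 < k) (hy : 0 < y) :
    2 * √(k * (y + 1)) - √(k * y) - √(k * (y + 2)) =
      2 * k ^ 2 / ((√(k * y) + √(k * (y + 2))) * (√(k * y) + √(k * (y + 1))) * (√(k * (y + 1)) + √(k * (y + 2)))) := by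
  obtain ⟨a, ha⟩ : ∃ a : ℝ, a = √(k * y) := ⟨_, rfl⟩
  obtain ⟨b, hb⟩ : ∃ b : ℝ, b = √(k * (y + 1)) := ⟨_, rfl⟩
  obtain ⟨c, hc⟩ : ∃ c : ℝ, c = √(k * (y + 2)) := ⟨_, rfl⟩
  have ha2 : a * a = k * y := by rw [ha]; exact Real.mul_self_sqrt (by positivity)
  have hb2 : b * b = k * (y + 1) := by rw [hb]; exact Real.mul_self_sqrt (by positivity)
  have hc2 : c * c = k * (y + 2) := by rw [hc]; exact Real.mul_self_sqrt (by positivity)
  have ha0 : 0 < a := by rw [ha]; positivity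
  have hb0 : 0 < b := by rw [hb]; positivity
  have hc0 : 0 < c := by rw [hc]; positivity
  rw [← ha, ← hb, ← hc, eq_div_iff (by positivity)]
  have h1 : (b - a) * (a + b) = k := by linear_combination hb2 - ha2
  have h2 : (c - b) * (b + c) = k := by linear_combination hc2 - hb2
  have h3 : (c - a) * (a + c) = 2 * k := by linear_combination hc2 - ha2
  -- (2b - a - c) (a+c)(a+b)(b+c) = [(b-a)(a+b)](b+c)(a+c) - [(c-b)(b+c)](a+b)(a+c) = k (c - a)(a + c) = 2 k^2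
  calc (2 * b - a - c) * ((a + c) * (a + b) * (b + c)) =
      ((b - a) * (a + b)) * (b + c) * (a + c) - ((c - b) * (b + c)) * (a + b) * (a + c) := by ring
    _ = k * ((c - a) * (a + c)) := by rw [h1, h2]; ring
    _ = 2 * k ^ 2 := by rw [h3]; ring

lemma second_anti {k y z : ℝ} (hk : 0 < k) (hy : 0 < y) (hyz : y ≤ z) :
    2 * √(k * (z + 1)) - √(k * z) - √(k * (z + 2)) ≤ 2 * √(k * (y + 1)) - √(k * y) - √(k * (y + 2)) := by
  rw [second hk hy, second hk (by linarith)]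
  gcongr

theorem ti : S_TI := by
  refine ⟨40, by norm_num, ?_⟩
  intro X X' h k b hX hX2 hh hh2 hk hk4 hb
  have hXR : (1 : ℝ) ≤ X := by exact_mod_cast hX
  have hX0 : (0 : ℝ) < X := by linarith
  have hhR : (1 : ℝ) ≤ h := by exact_mod_cast hh
  have hkR : (1 : ℝ) ≤ k := by exact_mod_cast hk
  have hlog : 0 ≤ Real.log X := Real.log_nonneg hXR
  obtain ⟨u, hu⟩ : ∃ u : ℝ, u = (X : ℝ) ^ (1 / 4 : ℝ) := ⟨_, rfl⟩
  have hu1 : 1 ≤ u := by rw [hu]; exact Real.one_le_rpow hXR (by norm_num)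
  have hu0 : 0 < u := by linarith
  have hu4 : (X : ℝ) = u ^ 4 := by
    rw [hu, ← Real.rpow_natCast, ← Real.rpow_mul hX0.le]
    norm_num
  have hu3 : (X : ℝ) ^ (3 / 4 : ℝ) = u ^ 3 := by
    rw [hu, ← Real.rpow_natCast, ← Real.rpow_mul hX0.le]
    norm_num
  rw [hu3, ← hu]
  obtain ⟨sh, hsh⟩ : ∃ sh : ℝ, sh = √(h : ℝ) := ⟨_, rfl⟩
  have hsh1 : 1 ≤ sh := by rw [hsh, Real.one_le_sqrt]; exact hhR
  have hsh2 : sh * sh = h := by rw [hsh]; exact Real.mul_self_sqrt (by linarith)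
  rw [← hsh]
  have hhu : (h : ℝ) ≤ u ^ 2 := by
    have h1 : (h : ℝ) ^ 2 ≤ (u ^ 2) ^ 2 := by
      have h2 : (h : ℝ) ^ 2 ≤ X := by exact_mod_cast hh2
      rw [hu4] at h2
      calc (h : ℝ) ^ 2 ≤ u ^ 4 := h2
        _ = _ := by ring
    exact le_of_sq_le_sq h1 (by positivity)
  have hku : (k : ℝ) ≤ u := by
    have h1 : (k : ℝ) ^ 4 ≤ u ^ 4 := by
      rw [← hu4]
      exact_mod_cast hk4
    exact le_of_pow_le_pow_left₀ (by norm_num) hu0.le h1
  obtain ⟨Lg, hLg⟩ : ∃ Lg : ℝ, Lg = 1 + Real.log X := ⟨_, rfl⟩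
  have hLg1 : 1 ≤ Lg := by linarith
  rw [← hLg]
  have hkX : (b : ℝ) * k ≤ 2 * X := by
    have h1 : b * k ≤ X' := (Nat.le_div_iff_mul_le hk).1 hb
    exact_mod_cast h1.trans hX2
  have hR0 : 0 ≤ 40 * (sh * u + u ^ 3 / (sh * k)) * Lg := by positivity
  -- trivial case
  by_cases hu2 : u < 2
  · have h1 : ‖∑ l ∈ Ioc (X / k) b, e (h * √((k * l : ℕ) : ℝ))‖ ≤ b := by
      refine (norm_sum_le _ _).trans ?_
      simp only [norm_e, sum_const, nsmul_eq_mul, mul_one, Nat.card_Ioc]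
      exact_mod_cast Nat.sub_le _ _
    have h2 : (b : ℝ) ≤ 2 * u ^ 4 := by
      rw [← hu4]
      have : (b : ℝ) ≤ b * k := le_mul_of_one_le_right (Nat.cast_nonneg _) hkR
      linarith
    have h3 : 2 * u ^ 4 ≤ 16 * u := by
      have : u ^ 3 ≤ 2 ^ 3 := pow_le_pow_left₀ hu0.le hu2.le 3
      have h4 : u ^ 4 = u ^ 3 * u := by ring
      rw [h4]
      nlinarith
    have h4 : u ≤ (sh * u + u ^ 3 / (sh * k)) * Lg := by
      have a1 : u ≤ sh * u := by nlinarith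
      have a2 : 0 ≤ u ^ 3 / (sh * k) := by positivity
      have a3 : sh * u + u ^ 3 / (sh * k) ≤ (sh * u + u ^ 3 / (sh * k)) * Lg := le_mul_of_one_le_right (by positivity) hLg1
      linarith
    nlinarith
  push Not at hu2
  by_cases hbA : b ≤ X / k
  · rw [Ioc_eq_empty_of_le hbA, sum_empty, norm_zero]
    exact hR0
  push Not at hbA
  obtain ⟨A, hA⟩ : ∃ A : ℕ, A = X / k := ⟨_, rfl⟩
  rw [← hA] at hbA ⊢
  obtain ⟨L, hL⟩ : ∃ L : ℕ, L = b - A := ⟨_, rfl⟩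
  have hL1 : 1 ≤ L := by omega
  have hkleX : k ≤ X := by
    have : k ≤ k ^ 4 := Nat.le_self_pow (by norm_num) k
    omega
  have hA1 : 1 ≤ A := by rw [hA]; exact Nat.div_pos hkleX hk
  have hkA : (X : ℝ) / 2 ≤ k * A := by
    have h1 : X < k * (A + 1) := by
      rw [hA]
      exact Nat.lt_mul_div_succ X hk
    have h2 : k ≤ k * A := Nat.le_mul_of_pos_right _ hA1
    have h3 : X ≤ 2 * (k * A) := by
      have : k * (A + 1) = k * A + k := by ring
      omega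
    have h4 : (X : ℝ) ≤ 2 * (k * A) := by exact_mod_cast h3
    linarith
  obtain ⟨x, hx⟩ : ∃ x : ℕ → ℝ, x = fun n : ℕ => -((h : ℝ) * √((k : ℝ) * ((b : ℝ) - n))) := ⟨_, rfl⟩
  have hsum : ‖∑ l ∈ Ioc A b, e (h * √((k * l : ℕ) : ℝ))‖ = ‖∑ n ∈ range L, e (x n)‖ := by
    have h1 : ∑ l ∈ Ioc A b, e (h * √((k * l : ℕ) : ℝ)) = ∑ n ∈ range L, e ((h : ℝ) * √((k : ℝ) * ((b : ℝ) - n))) := by
      apply Finset.sum_nbij' (fun l => b - l) (fun n => b - n)
      · intro l hl; rw [mem_Ioc] at hl; rw [mem_range]; omega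
      · intro n hn; rw [mem_range] at hn; rw [mem_Ioc]; omega
      · intro l hl; rw [mem_Ioc] at hl; omega
      · intro n hn; rw [mem_range] at hn; omega
      · intro l hl
        rw [mem_Ioc] at hl
        have h2 : ((b - l : ℕ) : ℝ) = b - l := Nat.cast_sub hl.2
        rw [h2]
        push_cast
        congr 2
        ring_nf
    rw [h1, ← norm_sum_neg (fun n : ℕ => (h : ℝ) * √((k : ℝ) * ((b : ℝ) - n))), hx]
  have hdd : ∀ n, dd x n = h * (2 * √((k : ℝ) * (((b : ℝ) - n - 2) + 1)) - √((k : ℝ) * ((b : ℝ) - n - 2)) -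
      √((k : ℝ) * (((b : ℝ) - n - 2) + 2))) := by
    intro n
    unfold dd
    rw [hx]
    push_cast
    rw [show (b : ℝ) - (n + 2) = (b : ℝ) - n - 2 by ring, show (b : ℝ) - (n + 1) = (b : ℝ) - n - 2 + 1 by ring,
      show ((b : ℝ) - n - 2 + 2) = (b : ℝ) - n by ring]
    ring
  have hk0 : (0 : ℝ) < k := by linarith
  have hsize : ∀ n, n + 2 ≤ L → (A : ℝ) ≤ (b : ℝ) - n - 2 := by
    intro n hn
    have h1 : A + n + 2 ≤ b := by omega
    have h2 : (A : ℝ) + n + 2 ≤ b := by exact_mod_cast h1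
    linarith
  have hA0 : (0 : ℝ) < A := by exact_mod_cast hA1
  have hbd : ∀ n, n + 2 ≤ L → (k : ℝ) ^ 2 / (16 * u ^ 6) ≤ 2 * √((k : ℝ) * (((b : ℝ) - n - 2) + 1)) -
      √((k : ℝ) * ((b : ℝ) - n - 2)) - √((k : ℝ) * (((b : ℝ) - n - 2) + 2)) ∧
      2 * √((k : ℝ) * (((b : ℝ) - n - 2) + 1)) - √((k : ℝ) * ((b : ℝ) - n - 2)) - √((k : ℝ) * (((b : ℝ) - n - 2) + 2)) ≤
        (k : ℝ) ^ 2 / u ^ 6 := by
    intro n hn
    have h1 := hsize n hn
    obtain ⟨y, hy⟩ : ∃ y : ℝ, y = (b : ℝ) - n - 2 := ⟨_, rfl⟩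
    rw [← hy] at h1 ⊢
    have hy0 : 0 < y := by linarith
    have hn0 : (0 : ℝ) ≤ n := Nat.cast_nonneg _
    have hyb : y + 2 ≤ b := by rw [hy]; linarith
    rw [second hk0 hy0]
    have lo : ∀ z : ℝ, y ≤ z → 7 / 10 * u ^ 2 ≤ √((k : ℝ) * z) := by
      intro z hz
      apply Real.le_sqrt_of_sq_le
      have h2 : (k : ℝ) * A ≤ k * z := by
        apply mul_le_mul_of_nonneg_left _ hk0.le
        linarith
      have h3 : (7 / 10 * u ^ 2) ^ 2 = 49 / 100 * u ^ 4 := by ring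
      rw [h3, ← hu4]
      linarith
    have hi : ∀ z : ℝ, z ≤ y + 2 → √((k : ℝ) * z) ≤ 3 / 2 * u ^ 2 := by
      intro z hz
      rw [Real.sqrt_le_left (by positivity)]
      have h2 : (k : ℝ) * z ≤ b * k := by
        rw [mul_comm (b : ℝ)]
        apply mul_le_mul_of_nonneg_left _ hk0.le
        linarith
      have h3 : (3 / 2 * u ^ 2) ^ 2 = 9 / 4 * u ^ 4 := by ring
      rw [h3, ← hu4]
      linarith
    have la := lo y le_rfl
    have lb := lo (y + 1) (by linarith)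
    have lc := lo (y + 2) (by linarith)
    have ua := hi y (by linarith)
    have ub := hi (y + 1) (by linarith)
    have uc := hi (y + 2) le_rfl
    obtain ⟨a, ha⟩ : ∃ a : ℝ, a = √((k : ℝ) * y) := ⟨_, rfl⟩
    obtain ⟨b', hb'⟩ : ∃ b' : ℝ, b' = √((k : ℝ) * (y + 1)) := ⟨_, rfl⟩
    obtain ⟨c, hc⟩ : ∃ c : ℝ, c = √((k : ℝ) * (y + 2)) := ⟨_, rfl⟩
    rw [← ha] at la ua ⊢
    rw [← hb'] at lb ub ⊢
    rw [← hc] at lc uc ⊢
    have hup : (a + c) * (a + b') * (b' + c) ≤ (3 * u ^ 2) * (3 * u ^ 2) * (3 * u ^ 2) := by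
      have p1 : 0 ≤ 7 / 10 * u ^ 2 := by positivity
      apply mul_le_mul _ (by linarith) (by linarith) (by positivity)
      exact mul_le_mul (by linarith) (by linarith) (by linarith) (by positivity)
    have hlo : (7 / 5 * u ^ 2) * (7 / 5 * u ^ 2) * (7 / 5 * u ^ 2) ≤ (a + c) * (a + b') * (b' + c) := by
      have p1 : 0 ≤ 7 / 10 * u ^ 2 := by positivity
      have q1 : 7 / 5 * u ^ 2 ≤ a + c := by linarith
      have q2 : 7 / 5 * u ^ 2 ≤ a + b' := by linarith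
      have q3 : 7 / 5 * u ^ 2 ≤ b' + c := by linarith
      have q0 : 0 ≤ 7 / 5 * u ^ 2 := by positivity
      apply mul_le_mul _ q3 q0 (by nlinarith)
      exact mul_le_mul q1 q2 q0 (by linarith)
    have hP0 : 0 < (a + c) * (a + b') * (b' + c) := by
      have : 0 < (7 / 5 * u ^ 2) * (7 / 5 * u ^ 2) * (7 / 5 * u ^ 2) := by positivity
      linarith
    constructor
    · rw [div_le_div_iff₀ (by positivity) hP0]
      have : (3 * u ^ 2) * (3 * u ^ 2) * (3 * u ^ 2) = 27 * u ^ 6 := by ring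
      rw [this] at hup
      calc (k : ℝ) ^ 2 * ((a + c) * (a + b') * (b' + c)) ≤ (k : ℝ) ^ 2 * (27 * u ^ 6) := by gcongr
        _ ≤ 2 * (k : ℝ) ^ 2 * (16 * u ^ 6) := by
            have : 0 ≤ (k : ℝ) ^ 2 * u ^ 6 := by positivity
            nlinarith
    · rw [div_le_div_iff₀ hP0 (by positivity)]
      have : (7 / 5 * u ^ 2) * (7 / 5 * u ^ 2) * (7 / 5 * u ^ 2) = 343 / 125 * u ^ 6 := by ring
      rw [this] at hlo
      calc 2 * (k : ℝ) ^ 2 * u ^ 6 ≤ (k : ℝ) ^ 2 * (343 / 125 * u ^ 6) := by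
            have : 0 ≤ (k : ℝ) ^ 2 * u ^ 6 := by positivity
            nlinarith
        _ ≤ (k : ℝ) ^ 2 * ((a + c) * (a + b') * (b' + c)) := by gcongr
  obtain ⟨lam, hlam⟩ : ∃ lam : ℝ, lam = h * ((k : ℝ) ^ 2 / (16 * u ^ 6)) := ⟨_, rfl⟩
  obtain ⟨Lam, hLam⟩ : ∃ Lam : ℝ, Lam = h * ((k : ℝ) ^ 2 / u ^ 6) := ⟨_, rfl⟩
  have hlam0 : 0 < lam := by rw [hlam]; positivity
  have hLL : lam ≤ Lam := by
    rw [hlam, hLam]
    apply mul_le_mul_of_nonneg_left _ (by linarith)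
    apply div_le_div_of_nonneg_left (by positivity) (by positivity)
    have : 0 ≤ u ^ 6 := by positivity
    linarith
  have hLam4 : Lam ≤ 1 / 4 := by
    have h1 : Lam ≤ u ^ 2 * (u ^ 2 / u ^ 6) := by
      rw [hLam]
      gcongr
    have h2 : u ^ 2 * (u ^ 2 / u ^ 6) = 1 / u ^ 2 := by field_simp
    rw [h2] at h1
    refine h1.trans ?_
    rw [div_le_div_iff₀ (by positivity) (by norm_num)]
    nlinarith
  have hv := vdc2 x L hL1 lam Lam hlam0 hLam4 (by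
      intro n hn
      rw [hdd, hlam]
      exact mul_le_mul_of_nonneg_left (hbd n hn).1 (by linarith)) (by
      intro n hn
      rw [hdd, hLam]
      exact mul_le_mul_of_nonneg_left (hbd n hn).2 (by linarith)) (by
      intro n hn
      rw [hdd, hdd]
      apply mul_le_mul_of_nonneg_left _ (by linarith)
      have h1 := hsize (n + 1) (by omega)
      push_cast at h1 ⊢
      exact second_anti hk0 (by linarith) (by linarith)) hLL
  rw [hsum]
  apply le_of_sq_le_sq _ hR0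
  refine hv.trans ?_
  -- sizes
  have hLle : (L : ℝ) ≤ 2 * u ^ 4 / k := by
    rw [le_div_iff₀ hk0]
    have : (L : ℝ) ≤ b := by exact_mod_cast (by omega : L ≤ b)
    calc (L : ℝ) * k ≤ b * k := by gcongr
      _ ≤ 2 * X := hkX
      _ = _ := by rw [hu4]
  have hL1R : (1 : ℝ) ≤ L := by exact_mod_cast hL1
  have hlogL : 1 + Real.log L ≤ 2 * Lg := by
    have h1 : (L : ℝ) ≤ 2 * X := by
      have h2 : 2 * u ^ 4 / k ≤ 2 * u ^ 4 := div_le_self (by positivity) hkR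
      rw [hu4]
      linarith
    have h2 := Real.log_le_log (by linarith) h1
    rw [Real.log_mul (by norm_num) hX0.ne'] at h2
    have h3 := Real.log_two_lt_d9
    linarith
  have hlogL0 : 0 ≤ 1 + Real.log L := by
    have := Real.log_nonneg hL1R
    linarith
  have e1 : 4 * Lam * L ≤ 8 * h * k / u ^ 2 := by
    rw [hLam]
    calc 4 * (h * ((k : ℝ) ^ 2 / u ^ 6)) * L ≤ 4 * (h * ((k : ℝ) ^ 2 / u ^ 6)) * (2 * u ^ 4 / k) := by gcongr
      _ = 8 * h * k / u ^ 2 := by field_simp; ring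
  have e2 : 4 / lam = 64 * u ^ 6 / (h * (k : ℝ) ^ 2) := by
    rw [hlam]
    field_simp
    ring
  calc 2 * (1 + 4 * Lam * L) * (L + 4 / lam * (1 + Real.log L)) ≤
      2 * (1 + 8 * h * k / u ^ 2) * (2 * u ^ 4 / k + 64 * u ^ 6 / (h * (k : ℝ) ^ 2) * (2 * Lg)) := by
        rw [e2]
        gcongr
    _ = 4 * (u ^ 4 / k) + 256 * (u ^ 6 / (h * (k : ℝ) ^ 2)) * Lg + 32 * (h * u ^ 2) + 2048 * (u ^ 4 / k) * Lg := by
        field_simp
        ring
    _ ≤ 1600 * (h * u ^ 2 + 2 * (u ^ 4 / k) + u ^ 6 / (h * (k : ℝ) ^ 2)) * (Lg * Lg) := by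
        have p1 : 0 ≤ u ^ 4 / k := by positivity
        have p2 : 0 ≤ u ^ 6 / (h * (k : ℝ) ^ 2) := by positivity
        have p3 : 0 ≤ h * u ^ 2 := by positivity
        have p4 : Lg ≤ Lg * Lg := by nlinarith
        have p5 : 1 ≤ Lg * Lg := by nlinarith
        have q1 : 4 * (u ^ 4 / k) ≤ 4 * (u ^ 4 / k) * (Lg * Lg) := le_mul_of_one_le_right (by positivity) p5
        have q2 : 256 * (u ^ 6 / (h * (k : ℝ) ^ 2)) * Lg ≤ 256 * (u ^ 6 / (h * (k : ℝ) ^ 2)) * (Lg * Lg) :=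
          mul_le_mul_of_nonneg_left p4 (by positivity)
        have q3 : 32 * (h * u ^ 2) ≤ 32 * (h * u ^ 2) * (Lg * Lg) := le_mul_of_one_le_right (by positivity) p5
        have q4 : 2048 * (u ^ 4 / k) * Lg ≤ 2048 * (u ^ 4 / k) * (Lg * Lg) := mul_le_mul_of_nonneg_left p4 (by positivity)
        have r1 : 0 ≤ (u ^ 4 / k) * (Lg * Lg) := by positivity
        have r2 : 0 ≤ (u ^ 6 / (h * (k : ℝ) ^ 2)) * (Lg * Lg) := by positivity
        have r3 : 0 ≤ (h * u ^ 2) * (Lg * Lg) := by positivity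
        nlinarith
    _ = (40 * (sh * u + u ^ 3 / (sh * k)) * Lg) ^ 2 := by
        have h1 : (sh * u + u ^ 3 / (sh * k)) ^ 2 = h * u ^ 2 + 2 * (u ^ 4 / k) + u ^ 6 / (h * (k : ℝ) ^ 2) := by
          rw [← hsh2]
          field_simp
          ring
        rw [← h1]
        ring

end Run7.h757.BP.Ti
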