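import Mathlib
import Pool.Agent.Run7.h757.BP.Stm
import Pool.Agent.N792.QB

set_option autoImplicit false

/-!
# Project BP: the double large sieve
-/

namespace Run7.h757.BP.Tii

open Finset
open Pool.Agent.H469R2.NK (e)
open Pool.Agent.N792 (grid_sqrt)

theorem tii (hspc : S_SPC) : S_TII := by
  classical
  obtain ⟨C, hC, hS⟩ := hspc
  refine ⟨25 * C * 500, by nlinarith, ?_⟩
  intro H K J hH hK hJ α β hα hβ
  have hHR : (1 : ℝ) ≤ H := by exact_mod_cast hH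
  have hKR : (1 : ℝ) ≤ K := by exact_mod_cast hK
  have hJR : (1 : ℝ) ≤ J := by exact_mod_cast hJ
  have hH0 : (0 : ℝ) < H := by linarith
  have hK0 : (0 : ℝ) < K := by linarith
  have hJ0 : (0 : ℝ) < J := by linarith
  obtain ⟨Y, hY⟩ : ∃ Y : ℝ, Y = 1 * (√(2 : ℝ) * √(J : ℝ)) := ⟨_, rfl⟩
  have hY' : Y = √(2 * (J : ℝ)) := by
    rw [hY, one_mul, ← Real.sqrt_mul (by norm_num)]
  have hY0 : 0 < Y := by rw [hY']; positivity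
  obtain ⟨Q, hQ⟩ : ∃ Q : ℝ, Q = H * √((K : ℝ) * J) := ⟨_, rfl⟩
  have hQ1 : 1 ≤ Q := by
    rw [hQ]
    have h1 : 1 ≤ √((K : ℝ) * J) := by
      rw [Real.one_le_sqrt]
      nlinarith
    nlinarith
  obtain ⟨G, hG⟩ : ∃ G : ℕ, G = ⌊16 * Q⌋₊ + 1 := ⟨_, rfl⟩
  have hG1 : 1 ≤ G := by omega
  have hGl : 16 * Q < G := by rw [hG]; push_cast; exact Nat.lt_floor_add_one _
  have hGu : (G : ℝ) ≤ 17 * Q := by
    rw [hG]
    push_cast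
    have := Nat.floor_le (show 0 ≤ 16 * Q by linarith)
    linarith
  have hsKJ : √((K : ℝ) * J) = √(K : ℝ) * √(J : ℝ) := Real.sqrt_mul hK0.le _
  have hss : √(J : ℝ) * √(J : ℝ) = J := Real.mul_self_sqrt hJ0.le
  have hYY : Y * Y = 2 * J := by rw [hY']; exact Real.mul_self_sqrt (by positivity)
  have hx2 : ∀ r ∈ Ico H (2 * H) ×ˢ Ioc K (2 * K), (r.1 : ℝ) * √(r.2 : ℝ) ≤ 2 * H * √(2 * (K : ℝ)) := by
    intro r hr
    rw [mem_product, mem_Ico, mem_Ioc] at hr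
    have h1 : (r.1 : ℝ) ≤ 2 * H := by exact_mod_cast hr.1.2.le
    have h2 : √(r.2 : ℝ) ≤ √(2 * (K : ℝ)) := by
      apply Real.sqrt_le_sqrt
      exact_mod_cast hr.2.2
    gcongr
  have h2K4 : √(2 * (K : ℝ)) * Y = 2 * √((K : ℝ) * J) := by
    rw [hY', ← Real.sqrt_mul (by positivity), show 2 * (K : ℝ) * (2 * J) = 2 ^ 2 * (K * J) by ring,
      Real.sqrt_mul (by norm_num), Real.sqrt_sq (by norm_num)]
  have hx : ∀ r ∈ Ico H (2 * H) ×ˢ Ioc K (2 * K), 0 ≤ (r.1 : ℝ) * √(r.2 : ℝ) ∧ (r.1 : ℝ) * √(r.2 : ℝ) * (4 * Y) < G := by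
    intro r hr
    refine ⟨by positivity, ?_⟩
    have h1 := hx2 r hr
    calc (r.1 : ℝ) * √(r.2 : ℝ) * (4 * Y) ≤ 2 * H * √(2 * (K : ℝ)) * (4 * Y) := by gcongr
      _ = 8 * H * (√(2 * (K : ℝ)) * Y) := by ring
      _ = 16 * Q := by rw [h2K4, hQ]; ring
      _ < G := hGl
  have hy : ∀ s ∈ Ioc J (2 * J), 0 ≤ √(s : ℝ) ∧ √(s : ℝ) ≤ Y := by
    intro s hs
    rw [mem_Ioc] at hs
    refine ⟨by positivity, ?_⟩
    rw [hY']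
    apply Real.sqrt_le_sqrt
    exact_mod_cast hs.2
  obtain ⟨D, hD⟩ : ∃ D : ℝ, D = H * √((K : ℝ) / J) := ⟨_, rfl⟩
  have hD0 : 0 ≤ D := by rw [hD]; positivity
  have hNx : (#(((Ico H (2 * H) ×ˢ Ioc K (2 * K)) ×ˢ (Ico H (2 * H) ×ˢ Ioc K (2 * K))).filter
      (fun v => |(v.1.1 : ℝ) * √(v.1.2 : ℝ) - (v.2.1 : ℝ) * √(v.2.2 : ℝ)| ≤ 1 / (4 * Y))) : ℝ) ≤
      C * (D * K + D * (H : ℝ) ^ 2 + H * K + (H : ℝ) ^ 2) := by
    refine le_trans ?_ (hS H K D hH hK hD0)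
    have : #(((Ico H (2 * H) ×ˢ Ioc K (2 * K)) ×ˢ (Ico H (2 * H) ×ˢ Ioc K (2 * K))).filter
      (fun v => |(v.1.1 : ℝ) * √(v.1.2 : ℝ) - (v.2.1 : ℝ) * √(v.2.2 : ℝ)| ≤ 1 / (4 * Y))) ≤
      #(((Ico H (2 * H) ×ˢ Ioc K (2 * K)) ×ˢ (Ico H (2 * H) ×ˢ Ioc K (2 * K))).filter
      (fun v : (ℕ × ℕ) × (ℕ × ℕ) => |(v.1.1 : ℝ) ^ 2 * v.1.2 - (v.2.1 : ℝ) ^ 2 * v.2.2| ≤ D)) := by
      apply card_le_card
      intro v hv
      rw [mem_filter] at hv ⊢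
      refine ⟨hv.1, ?_⟩
      have hv1 := mem_product.1 hv.1
      have a1 := hx2 _ hv1.1
      have a2 := hx2 _ hv1.2
      have b1 : (v.1.1 : ℝ) ^ 2 * v.1.2 - (v.2.1 : ℝ) ^ 2 * v.2.2 =
          ((v.1.1 : ℝ) * √(v.1.2 : ℝ) - (v.2.1 : ℝ) * √(v.2.2 : ℝ)) *
            ((v.1.1 : ℝ) * √(v.1.2 : ℝ) + (v.2.1 : ℝ) * √(v.2.2 : ℝ)) := by
        have c1 := Real.mul_self_sqrt (Nat.cast_nonneg (α := ℝ) v.1.2)
        have c2 := Real.mul_self_sqrt (Nat.cast_nonneg (α := ℝ) v.2.2)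
        calc (v.1.1 : ℝ) ^ 2 * v.1.2 - (v.2.1 : ℝ) ^ 2 * v.2.2 =
            (v.1.1 : ℝ) ^ 2 * (√(v.1.2 : ℝ) * √(v.1.2 : ℝ)) - (v.2.1 : ℝ) ^ 2 * (√(v.2.2 : ℝ) * √(v.2.2 : ℝ)) := by
              rw [c1, c2]
          _ = _ := by ring
      rw [b1, abs_mul, abs_of_nonneg (show 0 ≤ (v.1.1 : ℝ) * √(v.1.2 : ℝ) + (v.2.1 : ℝ) * √(v.2.2 : ℝ) by positivity)]
      calc |(v.1.1 : ℝ) * √(v.1.2 : ℝ) - (v.2.1 : ℝ) * √(v.2.2 : ℝ)| *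
            ((v.1.1 : ℝ) * √(v.1.2 : ℝ) + (v.2.1 : ℝ) * √(v.2.2 : ℝ)) ≤
            1 / (4 * Y) * (2 * H * √(2 * (K : ℝ)) + 2 * H * √(2 * (K : ℝ))) := by
              gcongr
              exact hv.2
        _ = D := by
            have d1 : √((K : ℝ) / J) = √(K : ℝ) / √(J : ℝ) := Real.sqrt_div hK0.le _
            have d2 : √(2 * (K : ℝ)) = √(2 : ℝ) * √(K : ℝ) := Real.sqrt_mul (by norm_num) _
            have d3 : 0 < √(J : ℝ) := Real.sqrt_pos.2 hJ0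
            have d4 : 0 < √(2 : ℝ) := by positivity
            rw [hD, d1, d2, hY]
            field_simp
            ring
    exact_mod_cast this
  have hNy : ∑ s ∈ Ioc J (2 * J), ∑ s' ∈ Ioc J (2 * J), ‖∑ p ∈ range (2 * G), e (1 / (4 * Y) * p * (√(s : ℝ) - √(s' : ℝ)))‖ ^ 2 ≤
      G * (3 * (J : ℝ) * (4 * G + 128 * J)) := by
    have h := grid_sqrt (K := J) (q := 1) (J' := G) (θ := 1) (Y := Y) (k := √(J : ℝ)) (w := √(2 : ℝ)) (S := Ioc J (2 * J))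
      le_rfl hJ one_pos hG1 rfl rfl hY (fun s hs => mem_Ioc.1 hs) (fun s _ s' _ => Nat.modEq_one)
    simp only [one_mul, Nat.cast_one, div_one] at h
    exact h
  have h := Pool.Agent.H373R2.T4.dls (Ico H (2 * H) ×ˢ Ioc K (2 * K)) (Ioc J (2 * J)) (fun r : ℕ × ℕ => (r.1 : ℝ) * √(r.2 : ℝ))
    (fun s : ℕ => √(s : ℝ)) (fun r => α r.1 r.2) β Y hY0 G hG1 hx hy 1 1 (fun r _ => hα _ _) (fun s _ => hβ s) zero_le_one
    zero_le_one _ _ hNx hNy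
  have hsum : ∑ h ∈ Ico H (2 * H), ∑ k ∈ Ioc K (2 * K), ∑ j ∈ Ioc J (2 * J), α h k * β j * e (h * √((j : ℝ) * k)) =
      ∑ r ∈ Ico H (2 * H) ×ˢ Ioc K (2 * K), ∑ s ∈ Ioc J (2 * J), α r.1 r.2 * β s * e ((r.1 : ℝ) * √(r.2 : ℝ) * √(s : ℝ)) := by
    rw [sum_product]
    refine sum_congr rfl fun h _ => sum_congr rfl fun k _ => sum_congr rfl fun j _ => ?_
    congr 2
    rw [Real.sqrt_mul (Nat.cast_nonneg _)]
    ring
  rw [hsum]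
  refine h.trans ?_
  rw [← hD, ← hQ]
  obtain ⟨B, hB⟩ : ∃ B : ℝ, B = D * K + D * (H : ℝ) ^ 2 + H * K + (H : ℝ) ^ 2 := ⟨_, rfl⟩
  have hB0 : 0 ≤ B := by rw [hB]; positivity
  rw [← hB]
  have hN : 3 * (J : ℝ) * (4 * G + 128 * J) ≤ 500 * (J * (Q + J)) := by
    have : 4 * (G : ℝ) + 128 * J ≤ 68 * Q + 128 * J := by linarith
    calc 3 * (J : ℝ) * (4 * G + 128 * J) ≤ 3 * (J : ℝ) * (68 * Q + 128 * J) := by gcongr
      _ ≤ 500 * (J * (Q + J)) := by nlinarith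
  calc 25 * (1 ^ 2 * (C * B) * (1 ^ 2 * (3 * (J : ℝ) * (4 * G + 128 * J)))) =
      25 * C * B * (3 * (J : ℝ) * (4 * G + 128 * J)) := by ring
    _ ≤ 25 * C * B * (500 * (J * (Q + J))) := by gcongr
    _ = _ := by ring

end Run7.h757.BP.Tii
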